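import Pool.Agent.Helper17_Hall.Rect

set_option autoImplicit false
set_option linter.unusedSectionVars false
set_option linter.unusedVariables false

/-!
The bilinear bound for symmetric designs and the sign rank on the rectangles of a partition.
-/

namespace Pool.Agent.Helper17_Hall

open Finset

/-- Counting flags: every point of a symmetric design lies on exactly `k` blocks.  (From the starting file
`Results/MP_c38931_co/DensityZero.lean`.) -/
theorem repl (v k lam : ℕ) (hv : 2 ≤ v) (hlam : 1 ≤ lam) (B : Fin v → Finset (Fin v))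
    (hk : ∀ i, (B i).card = k)
    (hp : ∀ x y : Fin v, x ≠ y →
      (Finset.univ.filter (fun i => x ∈ B i ∧ y ∈ B i)).card = lam) :
    (∀ x, (Finset.univ.filter (fun i => x ∈ B i)).card = k) ∧ k * k = lam * (v - 1) + k := by
  classical
  have h1 : ∀ x, (Finset.univ.filter (fun i => x ∈ B i)).card * k
      = (Finset.univ.filter (fun i => x ∈ B i)).card + lam * (v - 1) := by
    intro x
    have e1 : ∑ y : Fin v, (Finset.univ.filter (fun i => x ∈ B i ∧ y ∈ B i)).card
        = (Finset.univ.filter (fun i => x ∈ B i)).card * k := by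
      simp_rw [Finset.card_filter]
      rw [Finset.sum_comm, Finset.sum_mul]
      refine Finset.sum_congr rfl fun i _ => ?_
      by_cases hx : x ∈ B i
      · simp [hx, hk i]
      · simp [hx]
    rw [← e1, ← Finset.add_sum_erase _ _ (Finset.mem_univ x)]
    congr 1
    · simp
    · rw [Finset.sum_congr rfl (g := fun _ => lam)]
      · simp [Finset.card_erase_of_mem, mul_comm]
      · intro y hy
        exact hp x y (Finset.ne_of_mem_erase hy).symm
  have hpos : 1 ≤ lam * (v - 1) := by
    have : 1 ≤ v - 1 := by omega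
    exact Nat.mul_pos hlam this
  set r : Fin v → ℕ := fun x => (Finset.univ.filter (fun i => x ∈ B i)).card with hr
  have hk2 : 2 ≤ k := by
    by_contra hcon
    have h2 := h1 ⟨0, by omega⟩
    interval_cases k <;> simp at h2 <;> omega
  have hconst : ∀ x y, r x = r y := by
    intro x y
    have hx := h1 x
    have hy := h1 y
    obtain ⟨k', rfl⟩ : ∃ k', k = k' + 1 := ⟨k - 1, by omega⟩
    have hx' : r x * k' = lam * (v - 1) := by
      have : r x * (k' + 1) = r x + lam * (v - 1) := hx
      rw [mul_add, mul_one] at this; omega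
    have hy' : r y * k' = lam * (v - 1) := by
      have : r y * (k' + 1) = r y + lam * (v - 1) := hy
      rw [mul_add, mul_one] at this; omega
    have : r x * k' = r y * k' := by rw [hx', hy']
    exact Nat.eq_of_mul_eq_mul_right (by omega) this
  have hsum : ∑ x, r x = v * k := by
    simp only [hr]
    simp_rw [Finset.card_filter]
    rw [Finset.sum_comm]
    rw [Finset.sum_congr rfl (g := fun _ => k)]
    · simp
    · intro i _
      rw [← hk i]; simp
  have hrk : ∀ x, r x = k := by
    intro x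
    have : ∑ y, r y = v * r x := by
      rw [Finset.sum_congr rfl (g := fun _ => r x) (fun y _ => hconst y x)]; simp
    rw [this] at hsum
    exact Nat.eq_of_mul_eq_mul_left (by omega) hsum
  refine ⟨hrk, ?_⟩
  have h2 := h1 ⟨0, by omega⟩
  have h3 := hrk ⟨0, by omega⟩
  simp only [hr] at h3
  rw [h3] at h2
  omega

/-- the incidence matrix -/
noncomputable def inc {v : ℕ} (B : Fin v → Finset (Fin v)) (x y : Fin v) : ℝ :=
  if x ∈ B y then 1 else 0

/-- The weights. -/
noncomputable def Dm {v : ℕ} (k : ℕ) (B : Fin v → Finset (Fin v)) (x y : Fin v) : ℝ :=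
  (v : ℝ) / k * inc B x y - 1

section

variable {v k lam : ℕ} {B : Fin v → Finset (Fin v)}

theorem inc_sum (hr : ∀ x, (Finset.univ.filter (fun i => x ∈ B i)).card = k) (x : Fin v) :
    ∑ y, inc B x y = k := by
  unfold inc
  rw [← hr x, Finset.card_filter]
  push_cast
  rfl

theorem inc_sum2 (hr : ∀ x, (Finset.univ.filter (fun i => x ∈ B i)).card = k)
    (hp : ∀ x y : Fin v, x ≠ y →
      (Finset.univ.filter (fun i => x ∈ B i ∧ y ∈ B i)).card = lam) (x x' : Fin v) :
    ∑ y, inc B x y * inc B x' y = (if x = x' then (k : ℝ) - lam else 0) + lam := by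
  by_cases h : x = x'
  · subst h
    rw [if_pos rfl, sub_add_cancel, ← inc_sum hr x]
    refine Finset.sum_congr rfl fun y _ => ?_
    unfold inc
    split_ifs <;> norm_num
  · rw [if_neg h, zero_add, ← hp x x' h, Finset.card_filter]
    push_cast
    refine Finset.sum_congr rfl fun y _ => ?_
    unfold inc
    by_cases h1 : x ∈ B y <;> by_cases h2 : x' ∈ B y <;> simp [h1, h2]

theorem quad (hk : 2 ≤ k) (hkv : k < v)
    (hr : ∀ x, (Finset.univ.filter (fun i => x ∈ B i)).card = k)
    (hp : ∀ x y : Fin v, x ≠ y →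
      (Finset.univ.filter (fun i => x ∈ B i ∧ y ∈ B i)).card = lam)
    (hkk : (k : ℝ) * k = lam * ((v : ℝ) - 1) + k) (hlk : (lam : ℝ) ≤ k)
    (a : Fin v → ℝ) :
    ∑ y, (∑ x, Dm k B x y * a x) ^ 2 ≤ ((v : ℝ) / k) ^ 2 * (k - lam) * ∑ x, a x ^ 2 := by
  have hk0 : (0 : ℝ) < k := by
    have : 0 < k := by omega
    exact_mod_cast this
  have hv0 : (0 : ℝ) < v := by
    have : 0 < v := by omega
    exact_mod_cast this
  set c : ℝ := (v : ℝ) / k with hc
  have hck : c * k = v := by rw [hc]; field_simp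
  set S : ℝ := ∑ x, a x with hS
  set T : Fin v → ℝ := fun y => ∑ x, inc B x y * a x with hT
  have h1 : ∀ y, ∑ x, Dm k B x y * a x = c * T y - S := by
    intro y
    rw [hT, hS, Finset.mul_sum, ← Finset.sum_sub_distrib]
    refine Finset.sum_congr rfl fun x _ => ?_
    unfold Dm
    rw [← hc]
    ring
  have h2 : ∑ y, T y = k * S := by
    rw [hT, hS, Finset.sum_comm, Finset.mul_sum]
    refine Finset.sum_congr rfl fun x _ => ?_
    rw [← Finset.sum_mul, inc_sum hr x]
  have h3 : ∑ y, T y ^ 2 = (k - lam) * ∑ x, a x ^ 2 + lam * S ^ 2 := by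
    have e1 : ∀ y, T y ^ 2 = ∑ x, ∑ x', (inc B x y * inc B x' y) * (a x * a x') := by
      intro y
      rw [hT, sq, Finset.sum_mul_sum]
      refine Finset.sum_congr rfl fun x _ => Finset.sum_congr rfl fun x' _ => ?_
      ring
    simp_rw [e1]
    rw [Finset.sum_comm]
    have e2 : ∀ x, ∑ y, ∑ x', (inc B x y * inc B x' y) * (a x * a x') =
        (k - lam) * a x ^ 2 + lam * (a x * S) := by
      intro x
      rw [Finset.sum_comm]
      have e3 : ∀ x', ∑ y, (inc B x y * inc B x' y) * (a x * a x') =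
          (if x = x' then ((k : ℝ) - lam) * a x ^ 2 else 0) + lam * (a x * a x') := by
        intro x'
        rw [← Finset.sum_mul, inc_sum2 hr hp]
        by_cases h : x = x'
        · subst h
          simp only [if_true]
          ring
        · simp only [if_neg h]
          ring
      rw [Finset.sum_congr rfl fun x' _ => e3 x', Finset.sum_add_distrib]
      simp only [Finset.sum_ite_eq, Finset.mem_univ, if_true]
      rw [hS, Finset.mul_sum, Finset.mul_sum]
    rw [Finset.sum_congr rfl fun x _ => e2 x, Finset.sum_add_distrib, ← Finset.mul_sum,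
      ← Finset.mul_sum, ← Finset.sum_mul, ← hS]
    ring
  have h4 : ∑ y, (∑ x, Dm k B x y * a x) ^ 2 =
      c ^ 2 * (k - lam) * ∑ x, a x ^ 2 + (c ^ 2 * lam - v) * S ^ 2 := by
    have e1 : ∀ y, (∑ x, Dm k B x y * a x) ^ 2 = c ^ 2 * T y ^ 2 - 2 * c * S * T y + S ^ 2 := by
      intro y
      rw [h1 y]
      ring
    rw [Finset.sum_congr rfl fun y _ => e1 y, Finset.sum_add_distrib, Finset.sum_sub_distrib,
      ← Finset.mul_sum, ← Finset.mul_sum, h2, h3, Finset.sum_const, Finset.card_univ,
      Fintype.card_fin, nsmul_eq_mul]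
    have : (2 : ℝ) * c * S * (k * S) = 2 * v * S ^ 2 := by
      rw [← hck]; ring
    rw [this]
    ring
  rw [h4]
  have h5 : c ^ 2 * lam - v ≤ 0 := by
    have e1 : (v : ℝ) * lam ≤ k ^ 2 := by nlinarith
    have e2 : c ^ 2 * lam * k ^ 2 ≤ v * k ^ 2 := by
      have : c ^ 2 * lam * k ^ 2 = v * (v * lam) := by
        calc c ^ 2 * lam * k ^ 2 = (c * k) * (c * k) * lam := by ring
          _ = _ := by rw [hck]; ring
      rw [this]
      exact mul_le_mul_of_nonneg_left e1 hv0.le
    have e3 : (0 : ℝ) < k ^ 2 := by positivity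
    have := le_of_mul_le_mul_right e2 e3
    linarith
  have h6 : (c ^ 2 * lam - v) * S ^ 2 ≤ 0 := mul_nonpos_of_nonpos_of_nonneg h5 (sq_nonneg _)
  linarith

theorem bilin (hk : 2 ≤ k) (hkv : k < v)
    (hr : ∀ x, (Finset.univ.filter (fun i => x ∈ B i)).card = k)
    (hp : ∀ x y : Fin v, x ≠ y →
      (Finset.univ.filter (fun i => x ∈ B i ∧ y ∈ B i)).card = lam)
    (hkk : (k : ℝ) * k = lam * ((v : ℝ) - 1) + k) (hlk : (lam : ℝ) ≤ k)
    (a b : Fin v → ℝ) (s : ℝ) (hs : 0 < s) :
    ∑ x, ∑ y, Dm k B x y * (a x * b y) ≤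
      (s * (((v : ℝ) / k) ^ 2 * (k - lam)) * ∑ x, a x ^ 2 + s⁻¹ * 1 * ∑ y, b y ^ 2) / 2 := by
  have h1 : ∑ x, ∑ y, Dm k B x y * (a x * b y) = ∑ y, (∑ x, Dm k B x y * a x) * b y := by
    rw [Finset.sum_comm]
    refine Finset.sum_congr rfl fun y _ => ?_
    rw [Finset.sum_mul]
    refine Finset.sum_congr rfl fun x _ => ?_
    ring
  rw [h1]
  have h2 : ∀ y, (∑ x, Dm k B x y * a x) * b y ≤
      (s * (∑ x, Dm k B x y * a x) ^ 2 + s⁻¹ * b y ^ 2) / 2 := by
    intro y
    set z := ∑ x, Dm k B x y * a x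
    have h3 : 0 ≤ s⁻¹ * (s * z - b y) ^ 2 := by positivity
    have h4 : s⁻¹ * (s * z - b y) ^ 2 = s * z ^ 2 + s⁻¹ * b y ^ 2 - 2 * (z * b y) := by
      field_simp
      ring
    linarith
  calc ∑ y, (∑ x, Dm k B x y * a x) * b y
      ≤ ∑ y, (s * (∑ x, Dm k B x y * a x) ^ 2 + s⁻¹ * b y ^ 2) / 2 :=
        Finset.sum_le_sum fun y _ => h2 y
    _ = (s * ∑ y, (∑ x, Dm k B x y * a x) ^ 2 + s⁻¹ * ∑ y, b y ^ 2) / 2 := by
        rw [← Finset.sum_div, Finset.sum_add_distrib, Finset.mul_sum, Finset.mul_sum]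
    _ ≤ _ := by
        have h5 := quad hk hkv hr hp hkk hlk a
        have h6 := mul_le_mul_of_nonneg_left h5 hs.le
        have h7 : s * (((v : ℝ) / k) ^ 2 * (k - lam) * ∑ x, a x ^ 2) =
          s * (((v : ℝ) / k) ^ 2 * (k - lam)) * ∑ x, a x ^ 2 := by ring
        rw [h7] at h6
        linarith

end

end Pool.Agent.Helper17_Hall
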