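import Pool.Agent.Helper17_Hall.Weak

set_option autoImplicit false
set_option linter.unusedSectionVars false
set_option linter.unusedVariables false

/-!
Designs whose blocks are unions of cells: an explicit bound.
-/

namespace Pool.Agent.Helper17_Hall

open Matrix Finset

section

variable {v k lam : ℕ} {B : Fin v → Finset (Fin v)}

/-- Unjoined sets of points and blocks. -/
theorem unjoined (hk : 2 ≤ k) (hkv : k < v)
    (hr : ∀ x, (Finset.univ.filter (fun i => x ∈ B i)).card = k)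
    (hp : ∀ x y : Fin v, x ≠ y →
      (Finset.univ.filter (fun i => x ∈ B i ∧ y ∈ B i)).card = lam)
    (hkk : (k : ℝ) * k = lam * ((v : ℝ) - 1) + k) (hlk : (lam : ℝ) < k)
    (P Q : Finset (Fin v)) (hPQ : ∀ y ∈ Q, ∀ x ∈ P, x ∉ B y) :
    (P.card : ℝ) * Q.card ≤ ((v : ℝ) / k) ^ 2 * (k - lam) := by
  classical
  have hk0 : (0 : ℝ) < k := by
    have : 0 < k := by omega
    exact_mod_cast this
  have hv0 : (0 : ℝ) < v := by
    have : 0 < v := by omega
    exact_mod_cast this
  have hn0 : (0 : ℝ) < k - lam := by linarith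
  set τ : ℝ := ((v : ℝ) / k) ^ 2 * (k - lam) with hτ
  have hτ0 : 0 < τ := by positivity
  rcases Q.eq_empty_or_nonempty with hQ | hQ
  · rw [hQ]
    simp only [card_empty, Nat.cast_zero, mul_zero]
    exact hτ0.le
  have hQ0 : (0 : ℝ) < Q.card := by exact_mod_cast hQ.card_pos
  have h1 := bilin hk hkv hr hp hkk hlk.le (fun x => if x ∈ P then -1 else 0)
    (fun y => if y ∈ Q then 1 else 0) (Q.card / τ) (div_pos hQ0 hτ0)
  have h2 : ∑ x, ∑ y, Dm k B x y * ((if x ∈ P then -1 else 0) * (if y ∈ Q then (1 : ℝ) else 0)) =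
      P.card * Q.card := by
    have e1 : ∀ x y, Dm k B x y * ((if x ∈ P then -1 else 0) * (if y ∈ Q then (1 : ℝ) else 0)) =
        (if x ∈ P then 1 else 0) * (if y ∈ Q then (1 : ℝ) else 0) := by
      intro x y
      by_cases hx : x ∈ P
      · by_cases hy : y ∈ Q
        · rw [if_pos hx, if_pos hy, if_pos hx]
          unfold Dm inc
          rw [if_neg (hPQ y hy x hx)]
          ring
        · rw [if_neg hy]; ring
      · rw [if_neg hx, if_neg hx]; ring
    simp_rw [e1]
    rw [← Finset.sum_mul_sum]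
    congr 1 <;> simp
  rw [h2] at h1
  have h3 : ∑ x : Fin v, (if x ∈ P then (-1 : ℝ) else 0) ^ 2 = P.card := by
    have : ∀ x : Fin v, (if x ∈ P then (-1 : ℝ) else 0) ^ 2 = if x ∈ P then 1 else 0 := by
      intro x
      split_ifs <;> norm_num
    simp_rw [this]
    simp
  have h4 : ∑ y : Fin v, (if y ∈ Q then (1 : ℝ) else 0) ^ 2 = Q.card := by
    have : ∀ x : Fin v, (if x ∈ Q then (1 : ℝ) else 0) ^ 2 = if x ∈ Q then 1 else 0 := by
      intro x
      split_ifs <;> norm_num
    simp_rw [this]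
    simp
  rw [h3, h4] at h1
  have h5 : (Q.card : ℝ) / τ * τ * P.card = P.card * Q.card := by field_simp
  have h6 : ((Q.card : ℝ) / τ)⁻¹ * 1 * Q.card = τ := by field_simp
  rw [← hτ, h5, h6] at h1
  linarith

theorem exact_bound (hk : 2 ≤ k) (hkv : k < v) (hlam : 1 ≤ lam) (hlamk : lam < k)
    (hBk : ∀ y, (B y).card = k)
    (hr : ∀ x, (Finset.univ.filter (fun i => x ∈ B i)).card = k)
    (hp : ∀ x y : Fin v, x ≠ y →
      (Finset.univ.filter (fun i => x ∈ B i ∧ y ∈ B i)).card = lam)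
    (hkkN : k * k = lam * (v - 1) + k)
    {C1 C2 : ℕ} (P Q : Finset (Fin v)) (hP : v ≤ C1 * P.card) (hQ : v ≤ C2 * Q.card)
    (hPQ : ∀ y ∈ Q, ∀ x ∈ P, ∀ x' ∈ P, (x ∈ B y ↔ x' ∈ B y)) :
    v ≤ lam * C1 ^ 2 + (C1 * C2) ^ 2 := by
  classical
  have hv1 : ((v - 1 : ℕ) : ℝ) = (v : ℝ) - 1 := by
    rw [Nat.cast_sub (by omega)]
    norm_num
  have hkk : (k : ℝ) * k = lam * ((v : ℝ) - 1) + k := by
    rw [← hv1]
    exact_mod_cast hkkN
  have hk0 : (0 : ℝ) < k := by
    have : 0 < k := by omega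
    exact_mod_cast this
  have hv0 : (0 : ℝ) < v := by
    have : 0 < v := by omega
    exact_mod_cast this
  by_cases hPk : P.card ≤ k
  · -- few points in the cell
    have h1 : v ≤ C1 * k := hP.trans (Nat.mul_le_mul_left _ hPk)
    have h2 : k ≤ lam * C1 := by
      by_contra hcon
      have h3 : lam * C1 + 1 ≤ k := by omega
      have h4 : lam * (v - 1) + lam = lam * v := by
        obtain ⟨j, rfl⟩ : ∃ j, v = j + 1 := ⟨v - 1, by omega⟩
        simp only [Nat.add_sub_cancel]
        ring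
      have h5 : lam * v ≤ lam * (C1 * k) := Nat.mul_le_mul_left _ h1
      have h6 : (lam * C1 + 1) * k ≤ k * k := Nat.mul_le_mul_right _ h3
      have h7 : (lam * C1 + 1) * k = lam * (C1 * k) + k := by ring
      omega
    have h3 : C1 * k ≤ C1 * (lam * C1) := Nat.mul_le_mul_left _ h2
    have h4 : C1 * (lam * C1) = lam * C1 ^ 2 := by ring
    omega
  · have hempty : ∀ y ∈ Q, ∀ x ∈ P, x ∉ B y := by
      intro y hy x hx hxy
      have h1 : P ⊆ B y := fun x' hx' => (hPQ y hy x hx x' hx').1 hxy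
      have h2 := card_le_card h1
      rw [hBk y] at h2
      exact hPk h2
    have h1 := unjoined hk hkv hr hp hkk (by exact_mod_cast hlamk) P Q hempty
    have h2 : v * v ≤ (C1 * P.card) * (C2 * Q.card) := Nat.mul_le_mul hP hQ
    have h3 : (v : ℝ) * v ≤ (C1 * C2) * (P.card * Q.card) := by
      have : ((v * v : ℕ) : ℝ) ≤ (((C1 * P.card) * (C2 * Q.card) : ℕ) : ℝ) := by exact_mod_cast h2
      push_cast at this
      linarith
    have h4 : ((v : ℝ) / k) ^ 2 * (k - lam) ≤ v * v / k := by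
      have e1 : ((v : ℝ) / k) ^ 2 * (k - lam) ≤ ((v : ℝ) / k) ^ 2 * k := by
        refine mul_le_mul_of_nonneg_left ?_ (by positivity)
        have : (0 : ℝ) ≤ lam := Nat.cast_nonneg _
        linarith
      refine e1.trans (le_of_eq ?_)
      field_simp
    have h5 : (v : ℝ) * v ≤ (C1 * C2) * (v * v / k) :=
      h3.trans (mul_le_mul_of_nonneg_left (h1.trans h4) (by positivity))
    have h6 : (k : ℝ) ≤ C1 * C2 := by
      have e1 : (C1 * C2 : ℝ) * (v * v / k) = (v * v) * ((C1 * C2) / k) := by field_simp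
      rw [e1] at h5
      have e2 : (v * v : ℝ) * 1 ≤ (v * v) * ((C1 * C2) / k) := by linarith
      have e3 := le_of_mul_le_mul_left e2 (by positivity)
      rwa [one_le_div hk0] at e3
    have h7 : k ≤ C1 * C2 := by exact_mod_cast h6
    have h8 : k * k ≤ (C1 * C2) * (C1 * C2) := Nat.mul_le_mul h7 h7
    have h9 : (C1 * C2) * (C1 * C2) = (C1 * C2) ^ 2 := by ring
    have h10 : v - 1 ≤ lam * (v - 1) := Nat.le_mul_of_pos_left _ hlam
    omega

end

end Pool.Agent.Helper17_Hall
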