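import Pool.Agent.H524R2.Forster

set_option autoImplicit false
set_option linter.unusedSectionVars false
set_option linter.unusedVariables false

/-!
Large homogeneous rectangles in sign matrices of small sign rank, from Forster's isotropic position.
-/

namespace Pool.Agent.Helper17_Hall

open Matrix Finset Pool.Agent.H524R2

/-- Unit vectors in isotropic position. -/
theorem iso_pos {X Y : Type} [Fintype X] [Fintype Y] {d : ℕ}
    (u : X → Fin d → ℝ) (v : Y → Fin d → ℝ)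
    (hX : 0 < Fintype.card X) (hu : ∀ x, u x ≠ 0) (hv : ∀ y, v y ≠ 0)
    (σ : Fin d → Equiv.Perm X)
    (hσ : ∀ w, Matrix.det (Matrix.of fun j => u (σ j w)) ≠ 0) :
    ∃ (U : X → Fin d → ℝ) (V : Y → Fin d → ℝ), (∀ x, U x ⬝ᵥ U x = 1) ∧ (∀ y, V y ⬝ᵥ V y = 1) ∧
      (∀ x y, 0 < U x ⬝ᵥ V y ↔ 0 < u x ⬝ᵥ v y) ∧
      ∀ y, (Fintype.card X : ℝ) ≤ 2 * d * ∑ x, (U x ⬝ᵥ V y) ^ 2 := by
  classical
  obtain ⟨A, hA, hiso⟩ := exists_isotropic u hu σ hσ hX (1 / 2) (by norm_num)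
  have hnA : ∀ x, 0 < nrm u A x := fun x => dot_self_pos (mulVec_ne_zero hA (hu x))
  let v' : Y → Fin d → ℝ := fun y => (A⁻¹)ᵀ *ᵥ v y
  have hdu : IsUnit A.det := isUnit_iff_ne_zero.2 hA
  have hv'0 : ∀ y, v' y ≠ 0 := by
    intro y
    refine mulVec_ne_zero ?_ (hv y)
    rw [Matrix.det_transpose]
    exact (Matrix.isUnit_nonsing_inv_det A hdu).ne_zero
  have hdot : ∀ x y, (A *ᵥ u x) ⬝ᵥ v' y = u x ⬝ᵥ v y := by
    intro x y
    show (A *ᵥ u x) ⬝ᵥ ((A⁻¹)ᵀ *ᵥ v y) = _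
    rw [Matrix.dotProduct_mulVec, Matrix.vecMul_transpose, Matrix.mulVec_mulVec,
      Matrix.nonsing_inv_mul A hdu, Matrix.one_mulVec]
  let a : X → ℝ := fun x => Real.sqrt (nrm u A x)
  let b : Y → ℝ := fun y => Real.sqrt (v' y ⬝ᵥ v' y)
  have ha : ∀ x, 0 < a x := fun x => Real.sqrt_pos.2 (hnA x)
  have hb : ∀ y, 0 < b y := fun y => Real.sqrt_pos.2 (dot_self_pos (hv'0 y))
  have ha2 : ∀ x, a x ^ 2 = nrm u A x := fun x => Real.sq_sqrt (hnA x).le
  have hb2 : ∀ y, b y ^ 2 = v' y ⬝ᵥ v' y := fun y => Real.sq_sqrt (dot_self_pos (hv'0 y)).le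
  let U : X → Fin d → ℝ := fun x => (a x)⁻¹ • (A *ᵥ u x)
  let V : Y → Fin d → ℝ := fun y => (b y)⁻¹ • v' y
  have hU1 : ∀ x, U x ⬝ᵥ U x = 1 := by
    intro x
    show ((a x)⁻¹ • (A *ᵥ u x)) ⬝ᵥ ((a x)⁻¹ • (A *ᵥ u x)) = 1
    rw [smul_dotProduct, dotProduct_smul]
    have : (A *ᵥ u x) ⬝ᵥ (A *ᵥ u x) = a x ^ 2 := (ha2 x).symm
    rw [this]
    have := (ha x).ne'
    simp only [smul_eq_mul]
    field_simp
  have hV1 : ∀ y, V y ⬝ᵥ V y = 1 := by
    intro y
    show ((b y)⁻¹ • v' y) ⬝ᵥ ((b y)⁻¹ • v' y) = 1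
    rw [smul_dotProduct, dotProduct_smul, ← hb2]
    have := (hb y).ne'
    simp only [smul_eq_mul]
    field_simp
  have hUV : ∀ x y, U x ⬝ᵥ V y = (a x)⁻¹ * (b y)⁻¹ * (u x ⬝ᵥ v y) := by
    intro x y
    show ((a x)⁻¹ • (A *ᵥ u x)) ⬝ᵥ ((b y)⁻¹ • v' y) = _
    rw [smul_dotProduct, dotProduct_smul, hdot]
    simp only [smul_eq_mul]
    ring
  refine ⟨U, V, hU1, hV1, ?_, ?_⟩
  · intro x y
    rw [hUV]
    have h2 := inv_pos.2 (ha x)
    have h3 := inv_pos.2 (hb y)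
    exact mul_pos_iff_of_pos_left (mul_pos h2 h3)
  · intro y
    have h1 := hiso (V y) (hV1 y)
    have h2 : ∑ x, ((A *ᵥ u x) ⬝ᵥ V y) ^ 2 / nrm u A x = ∑ x, (U x ⬝ᵥ V y) ^ 2 := by
      refine Finset.sum_congr rfl fun x _ => ?_
      have h1 : U x ⬝ᵥ V y = (a x)⁻¹ * ((A *ᵥ u x) ⬝ᵥ V y) := by
        show ((a x)⁻¹ • (A *ᵥ u x)) ⬝ᵥ V y = _
        rw [smul_dotProduct, smul_eq_mul]
      rw [h1, mul_pow, inv_pow, ha2]
      ring
    rw [h2] at h1
    linarith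

open Polynomial in
/-- A small perturbation puts the vectors in general position. -/
theorem gen_pos {N d : ℕ} {Y : Type} [Fintype Y] (u : Fin N → Fin d → ℝ) (v : Y → Fin d → ℝ)
    (hne : ∀ x y, u x ⬝ᵥ v y ≠ 0) (hd0 : 0 < d) (hd : d ≤ N) :
    ∃ (u2 : Fin N → Fin d → ℝ) (σ : Fin d → Equiv.Perm (Fin N)),
      (∀ w, Matrix.det (Matrix.of fun j => u2 (σ j w)) ≠ 0) ∧ (∀ x, u2 x ≠ 0) ∧
      (∀ x y, 0 < u2 x ⬝ᵥ v y ↔ 0 < u x ⬝ᵥ v y) := by
  classical
  have hN : 0 < N := hd0.trans_le hd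
  have : NeZero N := ⟨hN.ne'⟩
  let σ : Fin d → Equiv.Perm (Fin N) := fun j => Equiv.addRight (Fin.castLE hd j)
  have hσinj : ∀ w, Function.Injective fun j => σ j w := by
    intro w j j' hjj
    simp only [σ, Equiv.coe_addRight] at hjj
    exact Fin.castLE_injective hd (add_left_cancel hjj)
  let p : Fin N → Fin d → ℝ := fun x i => ((x : ℕ) : ℝ) ^ (i : ℕ)
  have hp : ∀ w, Matrix.det (Matrix.of fun j => p (σ j w)) ≠ 0 := by
    intro w
    have : (Matrix.of fun j => p (σ j w)) =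
        Matrix.vandermonde fun j => (((σ j w : Fin N) : ℕ) : ℝ) := by
      ext i j; simp [p, Matrix.vandermonde]
    rw [this, Matrix.det_vandermonde_ne_zero_iff]
    intro j j' hjj
    have h1 : ((σ j w : Fin N) : ℕ) = ((σ j' w : Fin N) : ℕ) := by
      have h2 : (((σ j w : Fin N) : ℕ) : ℝ) = (((σ j' w : Fin N) : ℕ) : ℝ) := hjj
      exact_mod_cast h2
    exact hσinj w (Fin.ext h1)
  let P : Fin N → ℝ[X] := fun w =>
    Matrix.det ((X : ℝ[X]) • (Matrix.of fun j => p (σ j w)).map C +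
      (Matrix.of fun j => u (σ j w)).map C)
  have hP : ∀ w, P w ≠ 0 := by
    intro w h
    have := Polynomial.coeff_det_X_add_C_card (Matrix.of fun j => p (σ j w))
      (Matrix.of fun j => u (σ j w))
    change (P w).coeff _ = _ at this
    rw [h, Polynomial.coeff_zero] at this
    exact hp w this.symm
  have hPeval : ∀ w t, (P w).eval t =
      Matrix.det (Matrix.of fun j => (u (σ j w) + t • p (σ j w))) := by
    intro w t
    have := RingHom.map_det (Polynomial.evalRingHom t)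
      ((X : ℝ[X]) • (Matrix.of fun j => p (σ j w)).map C + (Matrix.of fun j => u (σ j w)).map C)
    rw [Polynomial.coe_evalRingHom] at this
    rw [this]
    congr 1
    ext i j
    simp
    ring
  have hev1 : ∀ᶠ t : ℝ in nhdsWithin 0 (Set.Ioi 0), ∀ w, (P w).eval t ≠ 0 := by
    rw [Filter.eventually_all]
    intro w
    have hfin : ((P w).roots.toFinset : Set ℝ).Finite := Finset.finite_toSet _
    have h1 : (((P w).roots.toFinset : Set ℝ) \ {0})ᶜ ∈ nhds (0 : ℝ) := by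
      refine (hfin.subset Set.sdiff_subset).isClosed.isOpen_compl.mem_nhds ?_
      simp
    filter_upwards [nhdsWithin_le_nhds h1, self_mem_nhdsWithin] with t ht ht0 hroot
    refine ht ⟨?_, ne_of_gt ht0⟩
    simp only [Finset.mem_coe, Multiset.mem_toFinset]
    exact (Polynomial.mem_roots (hP w)).2 hroot
  have hev2 : ∀ᶠ t : ℝ in nhdsWithin 0 (Set.Ioi 0),
      ∀ x y, 0 < (u x ⬝ᵥ v y) * ((u x + t • p x) ⬝ᵥ v y) := by
    rw [Filter.eventually_all]
    intro x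
    rw [Filter.eventually_all]
    intro y
    have hc : Filter.Tendsto (fun t : ℝ => (u x ⬝ᵥ v y) * ((u x + t • p x) ⬝ᵥ v y))
        (nhdsWithin 0 (Set.Ioi 0)) (nhds ((u x ⬝ᵥ v y) * ((u x + (0 : ℝ) • p x) ⬝ᵥ v y))) := by
      refine Filter.Tendsto.mono_left ?_ nhdsWithin_le_nhds
      refine Continuous.tendsto ?_ 0
      simp only [add_dotProduct, smul_dotProduct, smul_eq_mul]
      fun_prop
    refine (hc.eventually (lt_mem_nhds ?_)).mono fun t ht => ht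
    have := hne x y
    simp only [zero_smul, add_zero]
    exact mul_self_pos.2 this
  obtain ⟨t, h1, h2⟩ := (hev1.and hev2).exists
  have hσ' : ∀ w, Matrix.det (Matrix.of fun j => (u (σ j w) + t • p (σ j w))) ≠ 0 := by
    intro w
    rw [← hPeval]
    exact h1 w
  refine ⟨fun x => u x + t • p x, σ, hσ', ?_, ?_⟩
  · intro x hx
    let j : Fin d := ⟨0, hd0⟩
    have h3 := hσ' ((σ j).symm x)
    refine h3 (Matrix.det_eq_zero_of_row_eq_zero j fun i => ?_)
    rw [Matrix.of_apply, Equiv.apply_symm_apply]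
    exact congrFun hx i
  · intro x y
    have h3 := h2 x y
    constructor
    · intro h4
      by_contra hcon
      have h5 : (u x ⬝ᵥ v y) * ((u x + t • p x) ⬝ᵥ v y) ≤ 0 :=
        mul_nonpos_of_nonpos_of_nonneg (not_lt.1 hcon) h4.le
      linarith
    · intro h4
      exact (mul_pos_iff_of_pos_left h4).1 h3

end Pool.Agent.Helper17_Hall
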