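import Pool.Agent.Helper17_Hall.Homog

set_option autoImplicit false
set_option linter.unusedSectionVars false
set_option linter.unusedVariables false

/-!
Large homogeneous rectangles in sign matrices of small sign rank: rounding.
-/

namespace Pool.Agent.Helper17_Hall

open Matrix Finset

theorem dot_sq_le {d : ℕ} (a b : Fin d → ℝ) : (a ⬝ᵥ b) ^ 2 ≤ (a ⬝ᵥ a) * (b ⬝ᵥ b) := by
  have h := Finset.sum_mul_sq_le_sq_mul_sq univ a b
  have e1 : ∑ i, a i ^ 2 = a ⬝ᵥ a := Finset.sum_congr rfl fun i _ => by ring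
  have e2 : ∑ i, b i ^ 2 = b ⬝ᵥ b := Finset.sum_congr rfl fun i _ => by ring
  rw [e1, e2] at h
  exact h

theorem coord_le {d : ℕ} (a : Fin d → ℝ) (ha : a ⬝ᵥ a = 1) (i : Fin d) : |a i| ≤ 1 := by
  have h1 : a i * a i ≤ a ⬝ᵥ a :=
    Finset.single_le_sum (f := fun i => a i * a i) (fun j _ => mul_self_nonneg _) (mem_univ i)
  rw [ha] at h1
  exact abs_le_one_iff_mul_self_le_one.2 h1

theorem sign_stable {D p q : ℝ} (hD : 0 < D) (hp : 1 / (4 * D) ≤ p ^ 2)
    (hq : (q - p) ^ 2 ≤ 1 / (16 * D)) : 0 < q ↔ 0 < p := by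
  have h1 : 1 / (16 * D) < 1 / (4 * D) := by
    apply one_div_lt_one_div_of_lt <;> linarith
  have h2 : (q - p) ^ 2 < p ^ 2 := by linarith
  have h3 : |q - p| < |p| := sq_lt_sq.1 h2
  constructor
  · intro hq0
    by_contra hcon
    rw [abs_of_nonpos (not_lt.1 hcon)] at h3
    have := (abs_lt.1 h3).2
    linarith
  · intro hp0
    rw [abs_of_pos hp0] at h3
    have := (abs_lt.1 h3).1
    linarith

/-- Rounding. -/
theorem homog_unit {X Y : Type} [Fintype X] [Fintype Y] {d : ℕ} (hd : 0 < d)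
    (U : X → Fin d → ℝ) (V : Y → Fin d → ℝ) (hU : ∀ x, U x ⬝ᵥ U x = 1) (hV : ∀ y, V y ⬝ᵥ V y = 1)
    (hiso : ∀ y, (Fintype.card X : ℝ) ≤ 2 * d * ∑ x, (U x ⬝ᵥ V y) ^ 2) :
    ∃ (A : Finset X) (B : Finset Y), Fintype.card X ≤ 8 * d * A.card ∧
      Fintype.card Y ≤ (8 * d + 1) ^ d * B.card ∧
      ((∀ x ∈ A, ∀ y ∈ B, 0 < U x ⬝ᵥ V y) ∨ (∀ x ∈ A, ∀ y ∈ B, ¬ 0 < U x ⬝ᵥ V y)) := by
  classical
  have hd0 : (0 : ℝ) < d := by exact_mod_cast hd
  rcases isEmpty_or_nonempty Y with hY | hY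
  · refine ⟨univ, ∅, ?_, ?_, Or.inl fun x _ y hy => absurd hy (notMem_empty _)⟩
    · rw [card_univ]
      exact Nat.le_mul_of_pos_left _ (by omega)
    · simp
  -- the cells
  let m : ℤ := 4 * d
  let c : Y → Fin d → ℤ := fun y k => ⌊V y k * (4 * d)⌋
  let T : Finset (Fin d → ℤ) := Fintype.piFinset fun _ => Finset.Icc (-m) m
  have hTc : T.card = (8 * d + 1) ^ d := by
    rw [Fintype.card_piFinset]
    simp only [Int.card_Icc, prod_const, card_univ, Fintype.card_fin]
    congr 1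
    simp only [m]
    omega
  have hcT : ∀ y ∈ (univ : Finset Y), c y ∈ T := by
    intro y _
    rw [Fintype.mem_piFinset]
    intro k
    have h1 := abs_le.1 (coord_le (V y) (hV y) k)
    rw [Finset.mem_Icc]
    constructor
    · refine Int.le_floor.2 ?_
      simp only [m]
      push_cast
      nlinarith [h1.1]
    · have h2 : ⌊V y k * (4 * d)⌋ ≤ ⌊((m : ℤ) : ℝ)⌋ := by
        refine Int.floor_le_floor ?_
        simp only [m]
        push_cast
        nlinarith [h1.2]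
      rw [Int.floor_intCast] at h2
      exact h2
  have hTne : T.Nonempty := ⟨c (Classical.arbitrary Y), hcT _ (mem_univ _)⟩
  have hT0 : (0 : ℝ) < T.card := by exact_mod_cast hTne.card_pos
  obtain ⟨c0, hc0, hfib⟩ := Finset.exists_le_card_fiber_of_nsmul_le_card_of_maps_to
    (b := (Fintype.card Y : ℝ) / T.card) hcT hTne (by
      rw [nsmul_eq_mul, card_univ]
      rw [mul_div_cancel₀ _ hT0.ne'])
  set B : Finset Y := univ.filter fun y => c y = c0 with hB
  have hBcard : Fintype.card Y ≤ (8 * d + 1) ^ d * B.card := by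
    rw [div_le_iff₀ hT0] at hfib
    rw [← hTc]
    have : ((Fintype.card Y : ℕ) : ℝ) ≤ ((T.card * B.card : ℕ) : ℝ) := by
      push_cast
      linarith
    exact_mod_cast this
  have hBne : B.Nonempty := by
    rw [Finset.nonempty_iff_ne_empty]
    intro h
    rw [h] at hBcard
    simp at hBcard
  obtain ⟨y0, hy0⟩ := hBne
  have hy0c : c y0 = c0 := (mem_filter.1 hy0).2
  have hclose : ∀ y ∈ B, (V y - V y0) ⬝ᵥ (V y - V y0) ≤ 1 / (16 * d) := by
    intro y hy
    have hyc : c y = c0 := (mem_filter.1 hy).2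
    have h1 : ∀ k, (V y k - V y0 k) * (V y k - V y0 k) ≤ 1 / (4 * d) ^ 2 := by
      intro k
      have e1 : ⌊V y k * (4 * (d : ℝ))⌋ = ⌊V y0 k * (4 * (d : ℝ))⌋ := by
        have := congrFun (hyc.trans hy0c.symm) k
        exact this
      have e2 : |V y k * (4 * d) - V y0 k * (4 * d)| < 1 := Int.abs_sub_lt_one_of_floor_eq_floor e1
      have e3 : (V y k * (4 * d) - V y0 k * (4 * d)) ^ 2 ≤ 1 := by
        rw [← sq_abs]
        exact pow_le_one₀ (abs_nonneg _) e2.le
      rw [le_div_iff₀ (by positivity)]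
      nlinarith
    calc (V y - V y0) ⬝ᵥ (V y - V y0) = ∑ k, (V y k - V y0 k) * (V y k - V y0 k) := by
          simp [dotProduct]
      _ ≤ ∑ k : Fin d, 1 / (4 * (d : ℝ)) ^ 2 := Finset.sum_le_sum fun k _ => h1 k
      _ = 1 / (16 * d) := by
          rw [Finset.sum_const, card_univ, Fintype.card_fin, nsmul_eq_mul]
          field_simp
          norm_num
  -- the points with large inner product with `V y0`
  set G : Finset X := univ.filter fun x => 1 / (4 * (d : ℝ)) ≤ (U x ⬝ᵥ V y0) ^ 2 with hG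
  have hGcard : (Fintype.card X : ℝ) ≤ 4 * d * G.card := by
    have h1 : ∑ x, (U x ⬝ᵥ V y0) ^ 2 ≤ G.card + Fintype.card X * (1 / (4 * (d : ℝ))) := by
      have h2 : ∀ x, (U x ⬝ᵥ V y0) ^ 2 ≤ (if x ∈ G then (1 : ℝ) else 0) + 1 / (4 * (d : ℝ)) := by
        intro x
        split_ifs with hx
        · have h3 := dot_sq_le (U x) (V y0)
          rw [hU, hV, one_mul] at h3
          have : 0 ≤ 1 / (4 * (d : ℝ)) := by positivity
          linarith
        · rw [zero_add]
          by_contra hcon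
          exact hx (mem_filter.2 ⟨mem_univ _, (not_le.1 hcon).le⟩)
      refine (Finset.sum_le_sum fun x _ => h2 x).trans (le_of_eq ?_)
      rw [Finset.sum_add_distrib, Finset.sum_const, card_univ, nsmul_eq_mul]
      congr 1
      simp
    have h3 := hiso y0
    have h4 : 2 * (d : ℝ) * (G.card + Fintype.card X * (1 / (4 * (d : ℝ)))) =
        2 * d * G.card + Fintype.card X / 2 := by
      field_simp
      ring
    have h5 := mul_le_mul_of_nonneg_left h1 (show (0 : ℝ) ≤ 2 * d by positivity)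
    rw [h4] at h5
    linarith
  have hstab : ∀ x ∈ G, ∀ y ∈ B, (0 < U x ⬝ᵥ V y ↔ 0 < U x ⬝ᵥ V y0) := by
    intro x hx y hy
    refine sign_stable hd0 (mem_filter.1 hx).2 ?_
    have h1 := dot_sq_le (U x) (V y - V y0)
    rw [hU, one_mul] at h1
    have h2 : U x ⬝ᵥ (V y - V y0) = U x ⬝ᵥ V y - U x ⬝ᵥ V y0 := dotProduct_sub _ _ _
    rw [h2] at h1
    exact h1.trans (hclose y hy)
  have hsplit := Finset.card_filter_add_card_filter_not (s := G) (fun x => 0 < U x ⬝ᵥ V y0)
  rcases le_total (G.filter fun x => ¬ 0 < U x ⬝ᵥ V y0).card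
    (G.filter fun x => 0 < U x ⬝ᵥ V y0).card with h | h
  · refine ⟨G.filter fun x => 0 < U x ⬝ᵥ V y0, B, ?_, hBcard, Or.inl fun x hx y hy => ?_⟩
    · have h1 : G.card ≤ 2 * (G.filter fun x => 0 < U x ⬝ᵥ V y0).card := by omega
      have h2 : (Fintype.card X : ℝ) ≤ ((8 * d * (G.filter fun x => 0 < U x ⬝ᵥ V y0).card : ℕ) : ℝ) := by
        push_cast
        have h3 : (G.card : ℝ) ≤ 2 * ((G.filter fun x => 0 < U x ⬝ᵥ V y0).card : ℝ) := by
          exact_mod_cast h1
        nlinarith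
      exact_mod_cast h2
    · have hx' := mem_filter.1 hx
      exact (hstab x hx'.1 y hy).2 hx'.2
  · refine ⟨G.filter fun x => ¬ 0 < U x ⬝ᵥ V y0, B, ?_, hBcard, Or.inr fun x hx y hy => ?_⟩
    · have h1 : G.card ≤ 2 * (G.filter fun x => ¬ 0 < U x ⬝ᵥ V y0).card := by omega
      have h2 : (Fintype.card X : ℝ) ≤
          ((8 * d * (G.filter fun x => ¬ 0 < U x ⬝ᵥ V y0).card : ℕ) : ℝ) := by
        push_cast
        have h3 : (G.card : ℝ) ≤ 2 * ((G.filter fun x => ¬ 0 < U x ⬝ᵥ V y0).card : ℝ) := by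
          exact_mod_cast h1
        nlinarith
      exact_mod_cast h2
    · have hx' := mem_filter.1 hx
      exact fun hc => hx'.2 ((hstab x hx'.1 y hy).1 hc)

end Pool.Agent.Helper17_Hall
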