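import Pool.Agent.Helper17_Hall.Homog2

set_option autoImplicit false
set_option linter.unusedSectionVars false
set_option linter.unusedVariables false

/-!
Homogeneous rectangles inside a given rectangle, for one and for several relations of small sign rank.
-/

namespace Pool.Agent.Helper17_Hall

open Matrix Finset

/-- A strict threshold. -/
theorem exists_thr {X Y : Type} [Fintype X] [Fintype Y] (g : X → Y → ℝ) :
    ∃ δ : ℝ, 0 < δ ∧ ∀ x y, 0 < g x y → δ < g x y := by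
  have h : ∀ᶠ δ : ℝ in nhdsWithin 0 (Set.Ioi 0), ∀ x y, 0 < g x y → δ < g x y := by
    rw [Filter.eventually_all]
    intro x
    rw [Filter.eventually_all]
    intro y
    by_cases hg : 0 < g x y
    · filter_upwards [nhdsWithin_le_nhds (Iio_mem_nhds hg)] with δ hδ _
      exact hδ
    · exact Filter.Eventually.of_forall fun δ h => absurd h hg
  obtain ⟨δ, h1, h2⟩ := (h.and self_mem_nhdsWithin).exists
  exact ⟨δ, h2, h1⟩

/-- A homogeneous rectangle for one relation, types. -/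
theorem homog_types {N d : ℕ} {Y : Type} [Fintype Y] (u : Fin N → Fin d → ℝ) (w : Y → Fin d → ℝ)
    (hN : d + 1 ≤ N) :
    ∃ (A : Finset (Fin N)) (B : Finset Y), N ≤ 8 * (d + 1) * A.card ∧
      Fintype.card Y ≤ (8 * (d + 1) + 1) ^ (d + 1) * B.card ∧
      ((∀ x ∈ A, ∀ y ∈ B, 0 < u x ⬝ᵥ w y) ∨ (∀ x ∈ A, ∀ y ∈ B, ¬ 0 < u x ⬝ᵥ w y)) := by
  classical
  obtain ⟨δ, hδ, hthr⟩ := exists_thr (fun (x : Fin N) (y : Y) => u x ⬝ᵥ w y)
  let u' : Fin N → Fin (d + 1) → ℝ := fun x => vecCons 1 (u x)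
  let w' : Y → Fin (d + 1) → ℝ := fun y => vecCons (-δ) (w y)
  have hdot : ∀ x y, u' x ⬝ᵥ w' y = u x ⬝ᵥ w y - δ := by
    intro x y
    show vecCons 1 (u x) ⬝ᵥ vecCons (-δ) (w y) = _
    rw [cons_dotProduct_cons]
    ring
  have hiff : ∀ x y, 0 < u' x ⬝ᵥ w' y ↔ 0 < u x ⬝ᵥ w y := by
    intro x y
    rw [hdot]
    constructor
    · intro h; linarith
    · intro h
      have := hthr x y h
      linarith
  have hne : ∀ x y, u' x ⬝ᵥ w' y ≠ 0 := by
    intro x y h
    rw [hdot] at h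
    have h1 : 0 < u x ⬝ᵥ w y := by linarith
    have h2 := hthr x y h1
    linarith
  obtain ⟨u2, σ, hσ, hu2, hsgn⟩ := gen_pos u' w' hne (by omega) hN
  have hN0 : 0 < N := by omega
  have hw : ∀ y, w' y ≠ 0 := by
    intro y h
    have := hne ⟨0, hN0⟩ y
    rw [h, dotProduct_zero] at this
    exact this rfl
  obtain ⟨U, V, hU, hV, hUV, hiso⟩ := iso_pos u2 w' (by simpa using hN0) hu2 hw σ hσ
  obtain ⟨A, B, hA, hB, hAB⟩ := homog_unit (by omega) U V hU hV hiso
  rw [Fintype.card_fin] at hA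
  refine ⟨A, B, hA, hB, ?_⟩
  rcases hAB with h | h
  · exact Or.inl fun x hx y hy => (hiff x y).1 ((hsgn x y).1 ((hUV x y).1 (h x hx y hy)))
  · exact Or.inr fun x hx y hy hc =>
      h x hx y hy ((hUV x y).2 ((hsgn x y).2 ((hiff x y).2 hc)))

/-- A homogeneous rectangle for one relation inside `P × Q`. -/
theorem homog_one {v d : ℕ} (P Q : Finset (Fin v)) (u w : Fin v → Fin d → ℝ) :
    ∃ P' ⊆ P, ∃ Q' ⊆ Q, P.card ≤ 8 * (d + 1) * P'.card ∧
      Q.card ≤ (8 * (d + 1) + 1) ^ (d + 1) * Q'.card ∧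
      ((∀ x ∈ P', ∀ y ∈ Q', 0 < u x ⬝ᵥ w y) ∨ (∀ x ∈ P', ∀ y ∈ Q', ¬ 0 < u x ⬝ᵥ w y)) := by
  classical
  by_cases hP : d + 1 ≤ P.card
  · let φ := P.equivFin.symm
    obtain ⟨A, B, hA, hB, hAB⟩ := homog_types (Y := Q) (fun i => u (φ i)) (fun y => w y) hP
    refine ⟨A.map (φ.toEmbedding.trans (Function.Embedding.subtype _)), ?_,
      B.map (Function.Embedding.subtype _), ?_, ?_, ?_, ?_⟩
    · intro x hx
      obtain ⟨i, hi, rfl⟩ := mem_map.1 hx
      exact (φ i).2
    · intro y hy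
      obtain ⟨i, hi, rfl⟩ := mem_map.1 hy
      exact i.2
    · rw [card_map]; exact hA
    · rw [card_map, ← Fintype.card_coe Q]; exact hB
    · rcases hAB with h | h
      · left
        intro x hx y hy
        obtain ⟨i, hi, rfl⟩ := mem_map.1 hx
        obtain ⟨j, hj, rfl⟩ := mem_map.1 hy
        exact h i hi j hj
      · right
        intro x hx y hy
        obtain ⟨i, hi, rfl⟩ := mem_map.1 hx
        obtain ⟨j, hj, rfl⟩ := mem_map.1 hy
        exact h i hi j hj
  · rcases P.eq_empty_or_nonempty with hP0 | ⟨x0, hx0⟩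
    · refine ⟨∅, empty_subset _, Q, Subset.refl _, ?_, ?_, Or.inl fun x hx => absurd hx (notMem_empty _)⟩
      · simp [hP0]
      · exact Nat.le_mul_of_pos_left _ (by positivity)
    · have h2 : 2 ≤ (8 * (d + 1) + 1) ^ (d + 1) := by
        calc 2 ≤ 8 * (d + 1) + 1 := by omega
          _ = (8 * (d + 1) + 1) ^ 1 := (pow_one _).symm
          _ ≤ _ := Nat.pow_le_pow_right (by omega) (by omega)
      have hsplit := Finset.card_filter_add_card_filter_not (s := Q) (fun y => 0 < u x0 ⬝ᵥ w y)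
      rcases le_total (Q.filter fun y => ¬ 0 < u x0 ⬝ᵥ w y).card
        (Q.filter fun y => 0 < u x0 ⬝ᵥ w y).card with h | h
      · refine ⟨{x0}, singleton_subset_iff.2 hx0, Q.filter fun y => 0 < u x0 ⬝ᵥ w y,
          filter_subset _ _, ?_, ?_, Or.inl fun x hx y hy => ?_⟩
        · rw [card_singleton]; omega
        · calc Q.card ≤ 2 * (Q.filter fun y => 0 < u x0 ⬝ᵥ w y).card := by omega
            _ ≤ _ := Nat.mul_le_mul_right _ h2
        · rw [mem_singleton.1 hx]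
          exact (mem_filter.1 hy).2
      · refine ⟨{x0}, singleton_subset_iff.2 hx0, Q.filter fun y => ¬ 0 < u x0 ⬝ᵥ w y,
          filter_subset _ _, ?_, ?_, Or.inr fun x hx y hy => ?_⟩
        · rw [card_singleton]; omega
        · calc Q.card ≤ 2 * (Q.filter fun y => ¬ 0 < u x0 ⬝ᵥ w y).card := by omega
            _ ≤ _ := Nat.mul_le_mul_right _ h2
        · rw [mem_singleton.1 hx]
          exact (mem_filter.1 hy).2

/-- A homogeneous rectangle for several relations inside `P × Q`. -/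
theorem homog_many {v d L : ℕ} (P Q : Finset (Fin v)) (u w : Fin L → Fin v → Fin d → ℝ)
    (S : Finset (Fin L)) :
    ∃ P' ⊆ P, ∃ Q' ⊆ Q, P.card ≤ (8 * (d + 1)) ^ S.card * P'.card ∧
      Q.card ≤ ((8 * (d + 1) + 1) ^ (d + 1)) ^ S.card * Q'.card ∧
      ∀ l ∈ S, ((∀ x ∈ P', ∀ y ∈ Q', 0 < u l x ⬝ᵥ w l y) ∨
        (∀ x ∈ P', ∀ y ∈ Q', ¬ 0 < u l x ⬝ᵥ w l y)) := by
  classical
  induction S using Finset.induction_on with
  | empty =>
    exact ⟨P, Subset.refl _, Q, Subset.refl _, by simp, by simp, fun l hl => absurd hl (notMem_empty _)⟩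
  | insert l0 S hl0 ih =>
    obtain ⟨P1, hP1, Q1, hQ1, h1, h2, h3⟩ := ih
    obtain ⟨P2, hP2, Q2, hQ2, h4, h5, h6⟩ := homog_one P1 Q1 (u l0) (w l0)
    refine ⟨P2, hP2.trans hP1, Q2, hQ2.trans hQ1, ?_, ?_, ?_⟩
    · rw [card_insert_of_notMem hl0, pow_succ]
      calc P.card ≤ (8 * (d + 1)) ^ S.card * P1.card := h1
        _ ≤ (8 * (d + 1)) ^ S.card * (8 * (d + 1) * P2.card) := Nat.mul_le_mul_left _ h4
        _ = _ := by ring
    · rw [card_insert_of_notMem hl0, pow_succ]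
      calc Q.card ≤ ((8 * (d + 1) + 1) ^ (d + 1)) ^ S.card * Q1.card := h2
        _ ≤ ((8 * (d + 1) + 1) ^ (d + 1)) ^ S.card * ((8 * (d + 1) + 1) ^ (d + 1) * Q2.card) :=
            Nat.mul_le_mul_left _ h5
        _ = _ := by ring
    · intro l hl
      rcases mem_insert.1 hl with rfl | hl'
      · exact h6
      · rcases h3 l hl' with h | h
        · exact Or.inl fun x hx y hy => h x (hP2 hx) y (hQ2 hy)
        · exact Or.inr fun x hx y hy => h x (hP2 hx) y (hQ2 hy)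

end Pool.Agent.Helper17_Hall
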