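import Pool.Agent.H532R2.MC.Smooth

set_option autoImplicit false
set_option linter.unusedSectionVars false

/-!
The sign rank on a rectangle, with errors.  (Adapted from `Pool.Agent.Y601.LD.Rect` of the starting files.)
-/

namespace Pool.Agent.Helper17_Hall

open Finset Pool.Agent.H532R2.MC

theorem sum_extend {X : Type} [Fintype X] [DecidableEq X] (A : Finset X) (g : X → ℝ)
    (hg : ∀ x, x ∉ A → g x = 0) : ∑ i : Fin A.card, g (A.equivFin.symm i) = ∑ x, g x := by
  rw [← Finset.sum_subset (subset_univ A) (fun x _ hx => hg x hx), ← Finset.sum_coe_sort A g]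
  exact Equiv.sum_comp A.equivFin.symm (fun x : A => g x)

theorem sum_extend' {Y : Type} [Fintype Y] [DecidableEq Y] (B : Finset Y) (g : Y → ℝ)
    (hg : ∀ y, y ∉ B → g y = 0) : ∑ y : B, g y = ∑ y, g y := by
  rw [← Finset.sum_subset (subset_univ B) (fun x _ hx => hg x hx), ← Finset.sum_coe_sort B g]

/-- optimising the free parameter -/
theorem opt_param {p q : ℝ} (hp : 0 < p) (hq : 0 < q) :
    ∃ s : ℝ, 0 < s ∧ (s * p + s⁻¹ * q) / 2 = Real.sqrt (p * q) := by
  refine ⟨Real.sqrt (q / p), Real.sqrt_pos.2 (div_pos hq hp), ?_⟩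
  have h1 : Real.sqrt (q / p) * p = Real.sqrt (p * q) := by
    have h2 : Real.sqrt (q / p) * p = Real.sqrt (q / p) * Real.sqrt (p ^ 2) := by
      rw [Real.sqrt_sq hp.le]
    rw [h2, ← Real.sqrt_mul (div_pos hq hp).le]
    congr 1
    field_simp
  have h3 : (Real.sqrt (q / p))⁻¹ * q = Real.sqrt (p * q) := by
    rw [← Real.sqrt_inv, inv_div]
    have h2 : Real.sqrt (p / q) * q = Real.sqrt (p / q) * Real.sqrt (q ^ 2) := by
      rw [Real.sqrt_sq hq.le]
    rw [h2, ← Real.sqrt_mul (div_pos hp hq).le]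
    congr 1
    field_simp
  rw [h1, h3]
  ring

/-- **The sign rank on a rectangle, with errors.** -/
theorem rect_err {X Y : Type} [Fintype X] [Fintype Y] [DecidableEq X] [DecidableEq Y]
    (D : X → Y → ℝ) {P Q : ℝ} (hP : 0 < P) (hQ : 0 < Q)
    (hD : ∀ (a : X → ℝ) (b : Y → ℝ) (s : ℝ), 0 < s →
      ∑ x, ∑ y, D x y * (a x * b y) ≤ (s * P * ∑ x, a x ^ 2 + s⁻¹ * Q * ∑ y, b y ^ 2) / 2)
    (hD1 : ∀ x y, 1 ≤ |D x y|)
    (hPQ : (Fintype.card Y : ℝ) ≤ P * Q)
    (A : Finset X) (B : Finset Y) (E : Finset (X × Y)) (hE : E ⊆ A ×ˢ B) {r : ℕ} (hr : 0 < r)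
    (u : X → Fin r → ℝ) (v : Y → Fin r → ℝ)
    (hs : ∀ x ∈ A, ∀ y ∈ B, (x, y) ∉ E → 0 < D x y * (u x ⬝ᵥ v y)) :
    (A.card : ℝ) * B.card ≤
      r * (Real.sqrt (P * Q * (A.card * B.card)) + ∑ z ∈ E, (|D z.1 z.2| + 1)) := by
  classical
  have hr1 : (1 : ℝ) ≤ r := by exact_mod_cast hr
  have hS0 : (0 : ℝ) ≤ ∑ z ∈ E, (|D z.1 z.2| + 1) :=
    Finset.sum_nonneg fun z _ => by positivity
  have hSD0 : (0 : ℝ) ≤ ∑ z ∈ E, |D z.1 z.2| := Finset.sum_nonneg fun z _ => abs_nonneg _
  rcases Finset.eq_empty_or_nonempty A with hA | hA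
  · rw [hA]
    simp only [card_empty, Nat.cast_zero, zero_mul]
    positivity
  have hA1 : 1 ≤ A.card := Finset.card_pos.2 hA
  have hA1' : (1 : ℝ) ≤ A.card := by exact_mod_cast hA1
  by_cases hrA : r ≤ A.card
  swap
  · have h1 : (A.card : ℝ) ≤ r := by exact_mod_cast (not_le.1 hrA).le
    have h2 : (B.card : ℝ) ≤ P * Q := le_trans (by exact_mod_cast card_le_univ B) hPQ
    have h3 : (A.card : ℝ) * B.card ≤ r * Real.sqrt (P * Q * (A.card * B.card)) := by
      have h4 : ((B.card : ℝ)) ≤ Real.sqrt (P * Q * (A.card * B.card)) := by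
        refine Real.le_sqrt_of_sq_le ?_
        have h5 : (0 : ℝ) ≤ B.card := Nat.cast_nonneg _
        calc (B.card : ℝ) ^ 2 = B.card * (1 * B.card) := by ring
          _ ≤ (P * Q) * (A.card * B.card) :=
            mul_le_mul h2 (mul_le_mul_of_nonneg_right hA1' h5) (by positivity) (by positivity)
          _ = _ := by ring
      exact mul_le_mul h1 h4 (Nat.cast_nonneg _) (Nat.cast_nonneg _)
    have h5 : (0 : ℝ) ≤ r * ∑ z ∈ E, (|D z.1 z.2| + 1) := by positivity
    rw [mul_add]
    linarith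
  let W : X → Y → ℝ := fun x y => if (x, y) ∈ E then 0 else D x y
  have hW : ∀ x y, W x y = if (x, y) ∈ E then 0 else D x y := fun _ _ => rfl
  have hDne : ∀ x y, D x y ≠ 0 := by
    intro x y h
    have := hD1 x y
    rw [h, abs_zero] at this
    linarith
  let B' : Finset Y := B.filter fun y => ∃ x ∈ A, W x y ≠ 0
  have hB' : B' ⊆ B := filter_subset _ _
  let Ein : Finset (X × Y) := E.filter fun z => z.2 ∈ B'
  let Eout : Finset (X × Y) := E.filter fun z => ¬ z.2 ∈ B'
  have hEcard : (Ein.card : ℝ) + Eout.card = E.card := by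
    exact_mod_cast Finset.card_filter_add_card_filter_not (s := E) (fun z => z.2 ∈ B')
  have hB'' : (A.card : ℝ) * (B.card - B'.card) ≤ Eout.card := by
    have h1 : A ×ˢ (B \ B') ⊆ Eout := by
      rintro ⟨x, y⟩ hxy
      rw [mem_product, mem_sdiff] at hxy
      refine mem_filter.2 ⟨?_, hxy.2.2⟩
      by_contra hcon
      refine hxy.2.2 (mem_filter.2 ⟨hxy.2.1, x, hxy.1, ?_⟩)
      rw [hW, if_neg hcon]
      exact hDne x y
    have h2 := card_le_card h1
    rw [card_product, card_sdiff_of_subset hB'] at h2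
    have h3 : ((A.card * (B.card - B'.card) : ℕ) : ℝ) ≤ Eout.card := by exact_mod_cast h2
    rw [Nat.cast_mul, Nat.cast_sub (card_le_card hB')] at h3
    exact h3
  have hB'le : (B'.card : ℝ) ≤ B.card := by exact_mod_cast card_le_card hB'
  have hB'0 : (0 : ℝ) ≤ B'.card := Nat.cast_nonneg _
  let φ := A.equivFin.symm
  let E'' : Finset (Fin A.card × B') := univ.filter fun q => ((φ q.1 : X), (q.2 : Y)) ∈ E
  have hE'' : E''.card ≤ Ein.card := by
    refine Finset.card_le_card_of_injOn (fun q => ((φ q.1 : X), (q.2 : Y))) ?_ ?_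
    · intro q hq
      have h1 := (mem_filter.1 (mem_coe.1 hq)).2
      exact mem_coe.2 (mem_filter.2 ⟨h1, q.2.2⟩)
    · intro q _ q' _ h
      simp only [Prod.mk.injEq] at h
      exact Prod.ext (φ.injective (Subtype.ext h.1)) (Subtype.ext h.2)
  have key := smooth_forster (N := A.card) (d := r) (Y := B')
    (fun x y => W (φ x) y) E'' 1
    (Real.sqrt (P * Q * (A.card * B'.card)) + ∑ z ∈ E, |D z.1 z.2|) zero_le_one
    (fun x => u (φ x)) (fun y => v y) ?_ ?_ ?_ ?_ hr hrA
  · rw [Fintype.card_coe, one_mul, one_mul] at key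
    have h1 : Real.sqrt (P * Q * (A.card * B'.card)) ≤ Real.sqrt (P * Q * (A.card * B.card)) := by
      refine Real.sqrt_le_sqrt ?_
      exact mul_le_mul_of_nonneg_left (mul_le_mul_of_nonneg_left hB'le (Nat.cast_nonneg _))
        (by positivity)
    have h2 : (E''.card : ℝ) ≤ Ein.card := by exact_mod_cast hE''
    have h3 : (r : ℝ) * (Real.sqrt (P * Q * (A.card * B'.card)) + ∑ z ∈ E, |D z.1 z.2|
        + E''.card) ≤
        r * (Real.sqrt (P * Q * (A.card * B.card)) + ∑ z ∈ E, |D z.1 z.2| + Ein.card) :=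
      mul_le_mul_of_nonneg_left (by linarith) (Nat.cast_nonneg _)
    have h4 : (Eout.card : ℝ) ≤ r * Eout.card := le_mul_of_one_le_left (Nat.cast_nonneg _) hr1
    have h5 : ∑ z ∈ E, (|D z.1 z.2| + 1) = ∑ z ∈ E, |D z.1 z.2| + E.card := by
      rw [Finset.sum_add_distrib]; simp
    calc (A.card : ℝ) * B.card = A.card * B'.card + A.card * (B.card - B'.card) := by ring
      _ ≤ r * (Real.sqrt (P * Q * (A.card * B.card)) + ∑ z ∈ E, |D z.1 z.2| + Ein.card)
          + r * Eout.card :=
        add_le_add (key.trans h3) (hB''.trans h4)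
      _ = _ := by rw [h5, ← hEcard]; ring
  · -- signs
    intro x y hne
    beta_reduce at hne ⊢
    have hx : ((φ x : A) : X) ∈ A := (φ x).2
    have hy : (y : Y) ∈ B := hB' y.2
    by_cases hm : ((φ x : X), (y : Y)) ∈ E
    · rw [hW, if_pos hm] at hne
      exact absurd rfl hne
    · rw [hW, if_neg hm]
      exact hs _ hx _ hy hm
  · intro x y hxy
    beta_reduce
    have hm : ((φ x : X), (y : Y)) ∉ E := fun h => hxy (mem_filter.2 ⟨mem_univ _, h⟩)
    rw [hW, if_neg hm]
    exact hD1 _ _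
  · intro y
    obtain ⟨x, hx, hxy⟩ := (mem_filter.1 y.2).2
    refine ⟨φ.symm ⟨x, hx⟩, ?_⟩
    beta_reduce
    rw [Equiv.apply_symm_apply]
    exact hxy
  · intro U V hU hV
    beta_reduce
    obtain ⟨U', hU'⟩ : ∃ U' : X → Fin r → ℝ, U' = fun x => if h : x ∈ A then
      U (φ.symm ⟨x, h⟩) else 0 := ⟨_, rfl⟩
    obtain ⟨V', hV'⟩ : ∃ V' : Y → Fin r → ℝ, V' = fun y => if h : y ∈ B' then
      V ⟨y, h⟩ else 0 := ⟨_, rfl⟩
    have hUA : ∀ i : Fin A.card, U' (φ i) = U i := by
      intro i
      rw [hU']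
      simp only
      rw [dif_pos (φ i).2]
      congr 1
      exact φ.symm_apply_apply i
    have hVB : ∀ y : B', V' y = V y := by
      intro y
      rw [hV']
      simp only
      rw [dif_pos y.2]
    have hU0 : ∀ x, x ∉ A → U' x = 0 := by
      intro x hx
      rw [hU']
      simp only
      rw [dif_neg hx]
    have hV0 : ∀ y, y ∉ B' → V' y = 0 := by
      intro y hy
      rw [hV']
      simp only
      rw [dif_neg hy]
    have hsum : ∀ F : X → Y → ℝ, ∑ i : Fin A.card, ∑ y : B', F (φ i) y * (U i ⬝ᵥ V y) =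
        ∑ x, ∑ y, F x y * (U' x ⬝ᵥ V' y) := by
      intro F
      rw [← sum_extend A (fun x => ∑ y, F x y * (U' x ⬝ᵥ V' y))]
      · refine Finset.sum_congr rfl fun i _ => ?_
        rw [← sum_extend' B' (fun y => F (φ i) y * (U' (φ i) ⬝ᵥ V' y))]
        · refine Finset.sum_congr rfl fun y _ => ?_
          rw [hUA, hVB]
        · intro y hy
          rw [hV0 y hy, dotProduct_zero, mul_zero]
      · intro x hx
        refine Finset.sum_eq_zero fun y _ => ?_
        rw [hU0 x hx, zero_dotProduct, mul_zero]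
    rw [hsum W]
    have h2 : ∑ x, ∑ y, W x y * (U' x ⬝ᵥ V' y) =
        ∑ x, ∑ y, D x y * (U' x ⬝ᵥ V' y) +
        ∑ x, ∑ y, (if (x, y) ∈ E then - D x y else 0) * (U' x ⬝ᵥ V' y) := by
      rw [← Finset.sum_add_distrib]
      refine Finset.sum_congr rfl fun x _ => ?_
      rw [← Finset.sum_add_distrib]
      refine Finset.sum_congr rfl fun y _ => ?_
      rw [hW, ← add_mul]
      split_ifs <;> ring
    rw [h2]
    have hUU : ∀ x, U' x ⬝ᵥ U' x ≤ 1 := by
      intro x
      by_cases hx : x ∈ A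
      · have h3 := hUA (φ.symm ⟨x, hx⟩)
        rw [Equiv.apply_symm_apply] at h3
        simp only at h3
        rw [h3, hU]
      · rw [hU0 x hx, zero_dotProduct]
        norm_num
    have hVV : ∀ y, V' y ⬝ᵥ V' y ≤ 1 := by
      intro y
      by_cases hy : y ∈ B'
      · have h3 := hVB ⟨y, hy⟩
        simp only at h3
        rw [h3, hV]
      · rw [hV0 y hy, zero_dotProduct]
        norm_num
    refine add_le_add ?_ ?_
    · have h3 : ∑ x, ∑ y, D x y * (U' x ⬝ᵥ V' y) =
          ∑ k : Fin r, ∑ x, ∑ y, D x y * (U' x k * V' y k) := by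
        calc ∑ x, ∑ y, D x y * (U' x ⬝ᵥ V' y)
            = ∑ x, ∑ y, ∑ k : Fin r, D x y * (U' x k * V' y k) := by
              refine Finset.sum_congr rfl fun x _ => Finset.sum_congr rfl fun y _ => ?_
              rw [dotProduct, Finset.mul_sum]
          _ = ∑ x, ∑ k : Fin r, ∑ y, D x y * (U' x k * V' y k) :=
              Finset.sum_congr rfl fun x _ => Finset.sum_comm
          _ = _ := Finset.sum_comm
      rw [h3]
      have hnU : ∑ k : Fin r, ∑ x, U' x k ^ 2 = A.card := by
        rw [Finset.sum_comm, ← sum_extend A (fun x => ∑ k : Fin r, U' x k ^ 2)]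
        · have h4 : ∀ i : Fin A.card, ∑ k : Fin r, U' (φ i) k ^ 2 = 1 := by
            intro i
            rw [hUA, ← hU i, dotProduct]
            exact Finset.sum_congr rfl fun k _ => sq _
          rw [Finset.sum_congr rfl fun i _ => h4 i, Finset.sum_const, card_univ, Fintype.card_fin,
            nsmul_eq_mul, mul_one]
        · intro x hx
          rw [hU0 x hx]
          simp
      have hnV : ∑ k : Fin r, ∑ y, V' y k ^ 2 = B'.card := by
        rw [Finset.sum_comm, ← sum_extend' B' (fun y => ∑ k : Fin r, V' y k ^ 2)]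
        · have h4 : ∀ y : B', ∑ k : Fin r, V' y k ^ 2 = 1 := by
            intro y
            rw [hVB, ← hV y, dotProduct]
            exact Finset.sum_congr rfl fun k _ => sq _
          rw [Finset.sum_congr rfl fun i _ => h4 i, Finset.sum_const, card_univ, Fintype.card_coe,
            nsmul_eq_mul, mul_one]
        · intro y hy
          rw [hV0 y hy]
          simp
      rcases Nat.eq_zero_or_pos B'.card with h0 | h0
      · have h4 : ∀ y, V' y = 0 := fun y => hV0 y (by rw [Finset.card_eq_zero.1 h0]; simp)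
        have h5 : ∑ k : Fin r, ∑ x, ∑ y, D x y * (U' x k * V' y k) = 0 := by
          refine Finset.sum_eq_zero fun k _ => Finset.sum_eq_zero fun x _ =>
            Finset.sum_eq_zero fun y _ => ?_
          rw [h4 y]
          simp
        rw [h5]
        exact Real.sqrt_nonneg _
      · have hB0 : (0 : ℝ) < B'.card := by exact_mod_cast h0
        obtain ⟨s, hs, hsq⟩ := opt_param (p := P * A.card) (q := Q * B'.card)
          (mul_pos hP (by linarith)) (mul_pos hQ hB0)
        refine (Finset.sum_le_sum fun k _ => hD (fun x => U' x k) (fun y => V' y k) s hs).trans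
          (le_of_eq ?_)
        rw [← Finset.sum_div, Finset.sum_add_distrib, ← Finset.mul_sum, ← Finset.mul_sum, hnU, hnV]
        calc (s * P * A.card + s⁻¹ * Q * B'.card) / 2 =
              (s * (P * A.card) + s⁻¹ * (Q * B'.card)) / 2 := by ring
          _ = _ := hsq
          _ = _ := by congr 1; ring
    · have h3 : ∀ x y, |U' x ⬝ᵥ V' y| ≤ 1 := by
        intro x y
        have h4 : U' x ⬝ᵥ V' y ≤ (U' x ⬝ᵥ U' x + V' y ⬝ᵥ V' y) / 2 := by
          unfold dotProduct
          rw [← Finset.sum_add_distrib, Finset.sum_div]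
          refine Finset.sum_le_sum fun k _ => ?_
          nlinarith [sq_nonneg (U' x k - V' y k)]
        have h4' : - (U' x ⬝ᵥ V' y) ≤ (U' x ⬝ᵥ U' x + V' y ⬝ᵥ V' y) / 2 := by
          unfold dotProduct
          rw [← Finset.sum_add_distrib, Finset.sum_div, ← Finset.sum_neg_distrib]
          refine Finset.sum_le_sum fun k _ => ?_
          nlinarith [sq_nonneg (U' x k + V' y k)]
        have h5 := hUU x
        have h6 := hVV y
        exact abs_le.2 ⟨by linarith, by linarith⟩
      calc ∑ x, ∑ y, (if (x, y) ∈ E then - D x y else 0) * (U' x ⬝ᵥ V' y)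
          ≤ ∑ x, ∑ y, (if (x, y) ∈ E then |D x y| else 0) := by
            refine Finset.sum_le_sum fun x _ => Finset.sum_le_sum fun y _ => ?_
            split_ifs
            · calc - D x y * (U' x ⬝ᵥ V' y) ≤ |(- D x y) * (U' x ⬝ᵥ V' y)| := le_abs_self _
                _ = |D x y| * |U' x ⬝ᵥ V' y| := by rw [abs_mul, abs_neg]
                _ ≤ |D x y| * 1 := mul_le_mul_of_nonneg_left (h3 x y) (abs_nonneg _)
                _ = _ := mul_one _
            · rw [zero_mul]
        _ = ∑ z ∈ E, |D z.1 z.2| := by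
            rw [← Fintype.sum_prod_type' (fun x y => if (x, y) ∈ E then |D x y| else 0)]
            rw [← Finset.sum_filter]
            congr 1
            ext z
            simp

end Pool.Agent.Helper17_Hall
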