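import Pool.Agent.Helper17_Hall.Design

set_option autoImplicit false
set_option linter.unusedSectionVars false
set_option linter.unusedVariables false

/-!
Summation over the rectangles of a partition.
-/

namespace Pool.Agent.Helper17_Hall

open Finset

section

variable {v k lam : ℕ} {B : Fin v → Finset (Fin v)}

open Classical in
/-- the missed incidences in a rectangle -/
noncomputable def missR {d : ℕ} (B : Fin v → Finset (Fin v)) (P Q : Finset (Fin v))
    (a b : Fin v → Fin d → ℝ) : ℕ :=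
  ((P ×ˢ Q).filter fun z => z.1 ∈ B z.2 ∧ a z.1 ⬝ᵥ b z.2 ≤ 0).card

open Classical in
/-- the false incidences in a rectangle -/
noncomputable def falseR {d : ℕ} (B : Fin v → Finset (Fin v)) (P Q : Finset (Fin v))
    (a b : Fin v → Fin d → ℝ) : ℕ :=
  ((P ×ˢ Q).filter fun z => z.1 ∉ B z.2 ∧ 0 ≤ a z.1 ⬝ᵥ b z.2).card

theorem abs_Dm (hk : 2 ≤ k) (h2 : 2 * k ≤ v) (x y : Fin v) :
    |Dm k B x y| + 1 = if x ∈ B y then (v : ℝ) / k else 2 := by
  have hk0 : (0 : ℝ) < k := by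
    have : 0 < k := by omega
    exact_mod_cast this
  have h3 : (2 : ℝ) ≤ (v : ℝ) / k := by
    rw [le_div_iff₀ hk0]
    exact_mod_cast h2
  unfold Dm inc
  split_ifs
  · rw [mul_one, abs_of_nonneg (by linarith)]
    ring
  · norm_num

theorem local_bound (hk : 2 ≤ k) (h2 : 2 * k ≤ v)
    (hr : ∀ x, (Finset.univ.filter (fun i => x ∈ B i)).card = k)
    (hp : ∀ x y : Fin v, x ≠ y →
      (Finset.univ.filter (fun i => x ∈ B i ∧ y ∈ B i)).card = lam)
    (hkk : (k : ℝ) * k = lam * ((v : ℝ) - 1) + k) (hlk : (lam : ℝ) < k)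
    {d : ℕ} (hd : 0 < d) (P Q : Finset (Fin v)) (a b : Fin v → Fin d → ℝ) :
    (P.card : ℝ) * Q.card ≤ d * (Real.sqrt (((v : ℝ) / k) ^ 2 * (k - lam) * 1 * (P.card * Q.card))
      + ((v : ℝ) / k * missR B P Q a b + 2 * falseR B P Q a b)) := by
  classical
  have hk0 : (0 : ℝ) < k := by
    have : 0 < k := by omega
    exact_mod_cast this
  have hv0 : (0 : ℝ) < v := by
    have : 0 < v := by omega
    exact_mod_cast this
  have h2' : (2 : ℝ) * k ≤ v := by exact_mod_cast h2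
  have hc2 : (2 : ℝ) ≤ (v : ℝ) / k := by
    rw [le_div_iff₀ hk0]
    exact_mod_cast h2
  set E : Finset (Fin v × Fin v) := (P ×ˢ Q).filter fun z =>
    (z.1 ∈ B z.2 ∧ a z.1 ⬝ᵥ b z.2 ≤ 0) ∨ (z.1 ∉ B z.2 ∧ 0 ≤ a z.1 ⬝ᵥ b z.2) with hE
  have hn0 : (0 : ℝ) < k - lam := by linarith
  have key := rect_err (Dm k B) (P := ((v : ℝ) / k) ^ 2 * (k - lam)) (Q := 1)
    (by positivity) one_pos (fun x y s hs => bilin hk (by omega) hr hp hkk hlk.le x y s hs)
    (by
      intro x y
      have h1 := abs_Dm (B := B) hk h2 x y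
      have h3 : (2 : ℝ) ≤ |Dm k B x y| + 1 := by
        rw [h1]
        split_ifs
        · exact hc2
        · norm_num
      linarith)
    (by
      rw [Fintype.card_fin, mul_one]
      have e1 : ((v : ℝ) / k) ^ 2 * (k - lam) * k ^ 2 = v * (v * (k - lam)) := by
        field_simp
      have e2 : (k : ℝ) ^ 2 ≤ v * (k - lam) := by nlinarith
      have e3 : (v : ℝ) * k ^ 2 ≤ ((v : ℝ) / k) ^ 2 * (k - lam) * k ^ 2 := by
        rw [e1]
        exact mul_le_mul_of_nonneg_left e2 hv0.le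
      exact le_of_mul_le_mul_right e3 (by positivity))
    P Q E (filter_subset _ _) hd a b
    (by
      intro x hx y hy hxy
      by_cases h : x ∈ B y
      · have h3 : 0 < a x ⬝ᵥ b y := by
          by_contra hcon
          exact hxy (mem_filter.2 ⟨mem_product.2 ⟨hx, hy⟩, Or.inl ⟨h, not_lt.1 hcon⟩⟩)
        have h4 : 0 < Dm k B x y := by
          unfold Dm inc
          rw [if_pos h, mul_one]
          linarith
        exact mul_pos h4 h3
      · have h3 : a x ⬝ᵥ b y < 0 := by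
          by_contra hcon
          exact hxy (mem_filter.2 ⟨mem_product.2 ⟨hx, hy⟩, Or.inr ⟨h, not_lt.1 hcon⟩⟩)
        have h4 : Dm k B x y < 0 := by
          unfold Dm inc
          rw [if_neg h, mul_zero]
          norm_num
        exact mul_pos_of_neg_of_neg h4 h3)
  have hsum : ∑ z ∈ E, (|Dm k B z.1 z.2| + 1) =
      (v : ℝ) / k * missR B P Q a b + 2 * falseR B P Q a b := by
    have e1 : ∀ z ∈ E, |Dm k B z.1 z.2| + 1 =
        (if z.1 ∈ B z.2 ∧ a z.1 ⬝ᵥ b z.2 ≤ 0 then (v : ℝ) / k else 0) +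
        (if z.1 ∉ B z.2 ∧ 0 ≤ a z.1 ⬝ᵥ b z.2 then 2 else 0) := by
      intro z hz
      rw [abs_Dm hk h2]
      rcases (mem_filter.1 hz).2 with h | h
      · rw [if_pos h.1, if_pos h, if_neg (fun h' => h'.1 h.1), add_zero]
      · rw [if_neg h.1, if_neg (fun h' => h.1 h'.1), if_pos h, zero_add]
    rw [Finset.sum_congr rfl e1, Finset.sum_add_distrib, ← Finset.sum_filter, ← Finset.sum_filter,
      Finset.sum_const, Finset.sum_const, nsmul_eq_mul, nsmul_eq_mul]
    have e2 : E.filter (fun z => z.1 ∈ B z.2 ∧ a z.1 ⬝ᵥ b z.2 ≤ 0) =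
        (P ×ˢ Q).filter fun z => z.1 ∈ B z.2 ∧ a z.1 ⬝ᵥ b z.2 ≤ 0 := by
      rw [hE, Finset.filter_filter]
      refine Finset.filter_congr fun z _ => ?_
      tauto
    have e3 : E.filter (fun z => z.1 ∉ B z.2 ∧ 0 ≤ a z.1 ⬝ᵥ b z.2) =
        (P ×ˢ Q).filter fun z => z.1 ∉ B z.2 ∧ 0 ≤ a z.1 ⬝ᵥ b z.2 := by
      rw [hE, Finset.filter_filter]
      refine Finset.filter_congr fun z _ => ?_
      tauto
    rw [e2, e3]
    unfold missR falseR
    ring
  rw [hsum] at key
  exact key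

theorem sum_rects {R : ℕ} (P Q : Fin R → Finset (Fin v))
    (hPQ : ∀ i j, ∃! r, i ∈ P r ∧ j ∈ Q r) :
    ∑ r, ((P r).card : ℝ) * (Q r).card = (v : ℝ) * v := by
  classical
  have h1 : ∑ r, (P r ×ˢ Q r).card = v * v := by
    have h2 : ∀ r, (P r ×ˢ Q r).card = ∑ z : Fin v × Fin v, if z.1 ∈ P r ∧ z.2 ∈ Q r then 1 else 0 := by
      intro r
      rw [← Finset.card_filter]
      congr 1
      ext z
      simp [mem_product]
    rw [Finset.sum_congr rfl fun r _ => h2 r, Finset.sum_comm]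
    have h3 : ∀ z : Fin v × Fin v, (∑ r, if z.1 ∈ P r ∧ z.2 ∈ Q r then 1 else 0) = 1 := by
      intro z
      rw [← Finset.card_filter, Finset.card_eq_one]
      obtain ⟨r, hr, hu⟩ := hPQ z.1 z.2
      refine ⟨r, ?_⟩
      ext r'
      simp only [mem_filter, mem_univ, true_and, mem_singleton]
      exact ⟨fun h => hu r' h, fun h => by rw [h]; exact hr⟩
    rw [Finset.sum_congr rfl fun z _ => h3 z]
    simp
  have h4 : ((∑ r, (P r ×ˢ Q r).card : ℕ) : ℝ) = ((v * v : ℕ) : ℝ) := by rw [h1]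
  push_cast [card_product] at h4
  exact h4

theorem sum_bound (hk : 2 ≤ k) (h2 : 2 * k ≤ v)
    (hr : ∀ x, (Finset.univ.filter (fun i => x ∈ B i)).card = k)
    (hp : ∀ x y : Fin v, x ≠ y →
      (Finset.univ.filter (fun i => x ∈ B i ∧ y ∈ B i)).card = lam)
    (hkk : (k : ℝ) * k = lam * ((v : ℝ) - 1) + k) (hlk : (lam : ℝ) < k)
    {d R : ℕ} (hd : 0 < d) (P Q : Fin R → Finset (Fin v))
    (hPQ : ∀ i j, ∃! r, i ∈ P r ∧ j ∈ Q r) (a b : Fin R → Fin v → Fin d → ℝ) :
    (v : ℝ) ^ 2 * k ≤ d * ((v : ℝ) ^ 2 * Real.sqrt (R * (k - lam)) +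
      v * (∑ r, missR B (P r) (Q r) (a r) (b r) : ℕ) +
      2 * k * (∑ r, falseR B (P r) (Q r) (a r) (b r) : ℕ)) := by
  have hk0 : (0 : ℝ) < k := by
    have : 0 < k := by omega
    exact_mod_cast this
  have hv0 : (0 : ℝ) < v := by
    have : 0 < v := by omega
    exact_mod_cast this
  have hd0 : (0 : ℝ) < d := by exact_mod_cast hd
  have hn0 : (0 : ℝ) < k - lam := by linarith
  set c : ℝ := (v : ℝ) / k with hc
  have hc0 : 0 < c := by positivity
  have hck : c * k = v := by rw [hc]; field_simp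
  have h1 : (v : ℝ) * v ≤ ∑ r, d * (Real.sqrt (c ^ 2 * (k - lam) * 1 * ((P r).card * (Q r).card))
      + (c * missR B (P r) (Q r) (a r) (b r) + 2 * falseR B (P r) (Q r) (a r) (b r))) := by
    rw [← sum_rects P Q hPQ]
    exact Finset.sum_le_sum fun r _ => local_bound hk h2 hr hp hkk hlk hd _ _ _ _
  have h3 : ∑ r, Real.sqrt (c ^ 2 * (k - lam) * 1 * ((P r).card * (Q r).card)) ≤
      c * v * Real.sqrt (R * (k - lam)) := by
    have e1 : (∑ r, Real.sqrt (c ^ 2 * (k - lam) * 1 * ((P r).card * (Q r).card))) ^ 2 ≤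
        (c * v * Real.sqrt (R * (k - lam))) ^ 2 := by
      refine (sq_sum_le_card_mul_sum_sq).trans (le_of_eq ?_)
      rw [Finset.card_univ, Fintype.card_fin]
      have e2 : ∀ r, Real.sqrt (c ^ 2 * (k - lam) * 1 * ((P r).card * (Q r).card)) ^ 2 =
          c ^ 2 * (k - lam) * ((P r).card * (Q r).card) := by
        intro r
        rw [Real.sq_sqrt (by positivity)]
        ring
      rw [Finset.sum_congr rfl fun r _ => e2 r, ← Finset.mul_sum, sum_rects P Q hPQ, mul_pow,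
        Real.sq_sqrt (by positivity)]
      ring
    exact abs_le_of_sq_le_sq' e1 (by positivity) |>.2
  have h4 : ∑ r, d * (Real.sqrt (c ^ 2 * (k - lam) * 1 * ((P r).card * (Q r).card))
      + (c * missR B (P r) (Q r) (a r) (b r) + 2 * falseR B (P r) (Q r) (a r) (b r))) =
      d * (∑ r, Real.sqrt (c ^ 2 * (k - lam) * 1 * ((P r).card * (Q r).card)) +
        (c * (∑ r, missR B (P r) (Q r) (a r) (b r) : ℕ) +
          2 * (∑ r, falseR B (P r) (Q r) (a r) (b r) : ℕ))) := by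
    push_cast
    rw [← Finset.mul_sum, Finset.sum_add_distrib, Finset.sum_add_distrib, Finset.mul_sum,
      Finset.mul_sum]
  rw [h4] at h1
  set M : ℝ := ((∑ r, missR B (P r) (Q r) (a r) (b r) : ℕ) : ℝ) with hM
  set F : ℝ := ((∑ r, falseR B (P r) (Q r) (a r) (b r) : ℕ) : ℝ) with hF
  have h5 : (v : ℝ) * v ≤ d * (c * v * Real.sqrt (R * (k - lam)) + (c * M + 2 * F)) :=
    h1.trans (mul_le_mul_of_nonneg_left (by linarith) hd0.le)
  have h6 := mul_le_mul_of_nonneg_right h5 hk0.le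
  have h7 : (d : ℝ) * (c * v * Real.sqrt (R * (k - lam)) + (c * M + 2 * F)) * k =
      d * ((v : ℝ) ^ 2 * Real.sqrt (R * (k - lam)) + v * M + 2 * k * F) := by
    have : (d : ℝ) * (c * v * Real.sqrt (R * (k - lam)) + (c * M + 2 * F)) * k =
      d * ((c * k) * v * Real.sqrt (R * (k - lam)) + (c * k) * M + 2 * k * F) := by ring
    rw [this, hck]
    ring
  rw [h7] at h6
  calc (v : ℝ) ^ 2 * k = v * v * k := by ring
    _ ≤ _ := h6

end

end Pool.Agent.Helper17_Hall
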