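import Pool.Agent.Helper17_Hall.Design
import Pool.Agent.Helper17_Hall.Homog3

set_option autoImplicit false
set_option linter.unusedSectionVars false
set_option linter.unusedVariables false

/-!
The correlation of a symmetric design with a relation that is a combination of relations of small sign rank.
-/

namespace Pool.Agent.Helper17_Hall

open Matrix Finset

section

variable {v k lam : ℕ} {B : Fin v → Finset (Fin v)}

theorem Dm_ge (x y : Fin v) : -1 ≤ Dm k B x y := by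
  unfold Dm inc
  have : (0 : ℝ) ≤ (v : ℝ) / k := by positivity
  split_ifs <;> linarith

theorem rect_sum_le (hk : 2 ≤ k) (hkv : k < v)
    (hr : ∀ x, (Finset.univ.filter (fun i => x ∈ B i)).card = k)
    (hp : ∀ x y : Fin v, x ≠ y →
      (Finset.univ.filter (fun i => x ∈ B i ∧ y ∈ B i)).card = lam)
    (hkk : (k : ℝ) * k = lam * ((v : ℝ) - 1) + k) (hlk : (lam : ℝ) < k)
    (e : ℝ) (he : e ^ 2 = 1) (P Q : Finset (Fin v)) :
    e * ∑ x ∈ P, ∑ y ∈ Q, Dm k B x y ≤ Real.sqrt (((v : ℝ) / k) ^ 2 * (k - lam)) * v := by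
  classical
  have hk0 : (0 : ℝ) < k := by
    have : 0 < k := by omega
    exact_mod_cast this
  have hv0 : (0 : ℝ) < v := by
    have : 0 < v := by omega
    exact_mod_cast this
  have hn0 : (0 : ℝ) < k - lam := by linarith
  set σ : ℝ := Real.sqrt (((v : ℝ) / k) ^ 2 * (k - lam)) with hσ
  have hσ0 : 0 < σ := Real.sqrt_pos.2 (by positivity)
  have hσ2 : σ ^ 2 = ((v : ℝ) / k) ^ 2 * (k - lam) := Real.sq_sqrt (by positivity)
  have h1 := bilin hk hkv hr hp hkk hlk.le (fun x => if x ∈ P then e else 0)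
    (fun y => if y ∈ Q then 1 else 0) σ⁻¹ (inv_pos.2 hσ0)
  have h2 : ∑ x, ∑ y, Dm k B x y * ((if x ∈ P then e else 0) * (if y ∈ Q then (1 : ℝ) else 0)) =
      e * ∑ x ∈ P, ∑ y ∈ Q, Dm k B x y := by
    rw [Finset.mul_sum, ← Finset.sum_filter_add_sum_filter_not (s := (univ : Finset (Fin v)))
      (p := fun x => x ∈ P)]
    have e1 : ∑ x ∈ univ.filter (fun x => ¬ x ∈ P), ∑ y,
        Dm k B x y * ((if x ∈ P then e else 0) * (if y ∈ Q then (1 : ℝ) else 0)) = 0 := by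
      refine Finset.sum_eq_zero fun x hx => Finset.sum_eq_zero fun y _ => ?_
      rw [if_neg (mem_filter.1 hx).2]
      ring
    rw [e1, add_zero]
    have e2 : univ.filter (fun x => x ∈ P) = P := by ext x; simp
    rw [e2]
    refine Finset.sum_congr rfl fun x hx => ?_
    rw [Finset.mul_sum, ← Finset.sum_filter_add_sum_filter_not (s := (univ : Finset (Fin v)))
      (p := fun y => y ∈ Q)]
    have e3 : ∑ y ∈ univ.filter (fun y => ¬ y ∈ Q),
        Dm k B x y * ((if x ∈ P then e else 0) * (if y ∈ Q then (1 : ℝ) else 0)) = 0 := by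
      refine Finset.sum_eq_zero fun y hy => ?_
      rw [if_neg (mem_filter.1 hy).2]
      ring
    have e4 : univ.filter (fun y => y ∈ Q) = Q := by ext x; simp
    rw [e3, add_zero, e4]
    refine Finset.sum_congr rfl fun y hy => ?_
    rw [if_pos hx, if_pos hy]
    ring
  rw [h2] at h1
  have h3 : ∑ x : Fin v, (if x ∈ P then e else 0) ^ 2 ≤ v := by
    calc ∑ x : Fin v, (if x ∈ P then e else 0) ^ 2 ≤ ∑ x : Fin v, (1 : ℝ) := by
          refine Finset.sum_le_sum fun x _ => ?_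
          split_ifs
          · exact he.le
          · norm_num
      _ = v := by simp
  have h4 : ∑ y : Fin v, (if y ∈ Q then (1 : ℝ) else 0) ^ 2 ≤ v := by
    calc ∑ y : Fin v, (if y ∈ Q then (1 : ℝ) else 0) ^ 2 ≤ ∑ y : Fin v, (1 : ℝ) := by
          refine Finset.sum_le_sum fun x _ => ?_
          split_ifs <;> norm_num
      _ = v := by simp
  refine h1.trans ?_
  rw [← hσ2]
  have h5 : σ⁻¹ * σ ^ 2 = σ := by field_simp
  rw [h5, inv_inv, mul_one]
  have h6 := mul_le_mul_of_nonneg_left h3 hσ0.le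
  have h7 := mul_le_mul_of_nonneg_left h4 hσ0.le
  linarith

theorem rect_sum_abs (hk : 2 ≤ k) (hkv : k < v)
    (hr : ∀ x, (Finset.univ.filter (fun i => x ∈ B i)).card = k)
    (hp : ∀ x y : Fin v, x ≠ y →
      (Finset.univ.filter (fun i => x ∈ B i ∧ y ∈ B i)).card = lam)
    (hkk : (k : ℝ) * k = lam * ((v : ℝ) - 1) + k) (hlk : (lam : ℝ) < k)
    (P Q : Finset (Fin v)) :
    |∑ x ∈ P, ∑ y ∈ Q, Dm k B x y| ≤ Real.sqrt (((v : ℝ) / k) ^ 2 * (k - lam)) * v := by
  have h1 := rect_sum_le hk hkv hr hp hkk hlk 1 (by norm_num) P Q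
  have h2 := rect_sum_le hk hkv hr hp hkk hlk (-1) (by norm_num) P Q
  rw [abs_le]
  constructor <;> linarith

open Classical in
/-- the sum over the part of a rectangle in the relation -/
noncomputable def SG (k : ℕ) (B G : Fin v → Finset (Fin v)) (P Q : Finset (Fin v)) : ℝ :=
  ∑ x ∈ P, ∑ y ∈ Q, if x ∈ G y then Dm k B x y else 0

theorem SG_trivial {M : ℝ} (hM : ∀ P Q : Finset (Fin v), |∑ x ∈ P, ∑ y ∈ Q, Dm k B x y| ≤ M)
    (G : Fin v → Finset (Fin v)) (P Q : Finset (Fin v)) :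
    |SG k B G P Q| ≤ M + 2 * (P.card * Q.card) := by
  classical
  calc |SG k B G P Q| ≤ ∑ x ∈ P, |∑ y ∈ Q, if x ∈ G y then Dm k B x y else 0| :=
        Finset.abs_sum_le_sum_abs _ _
    _ ≤ ∑ x ∈ P, ∑ y ∈ Q, |if x ∈ G y then Dm k B x y else 0| :=
        Finset.sum_le_sum fun x _ => Finset.abs_sum_le_sum_abs _ _
    _ ≤ ∑ x ∈ P, ∑ y ∈ Q, (Dm k B x y + 2) := by
        refine Finset.sum_le_sum fun x _ => Finset.sum_le_sum fun y _ => ?_
        have h1 := Dm_ge (k := k) (B := B) x y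
        split_ifs
        · rw [abs_le]
          constructor <;> linarith
        · rw [abs_zero]; linarith
    _ = ∑ x ∈ P, ∑ y ∈ Q, Dm k B x y + 2 * (P.card * Q.card) := by
        simp only [Finset.sum_add_distrib, Finset.sum_const, nsmul_eq_mul]
        ring
    _ ≤ _ := by
        have := (abs_le.1 (hM P Q)).2
        linarith

theorem SG_homog {M : ℝ} (hM : ∀ P Q : Finset (Fin v), |∑ x ∈ P, ∑ y ∈ Q, Dm k B x y| ≤ M)
    (G : Fin v → Finset (Fin v)) (P Q : Finset (Fin v))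
    (h : ∀ y ∈ Q, ∀ x ∈ P, ∀ x' ∈ P, (x ∈ G y ↔ x' ∈ G y)) :
    |SG k B G P Q| ≤ M := by
  classical
  have h1 : SG k B G P Q = ∑ x ∈ P, ∑ y ∈ Q.filter (fun y => ∃ x' ∈ P, x' ∈ G y), Dm k B x y := by
    unfold SG
    refine Finset.sum_congr rfl fun x hx => ?_
    rw [Finset.sum_filter]
    refine Finset.sum_congr rfl fun y hy => ?_
    by_cases hxy : x ∈ G y
    · rw [if_pos hxy, if_pos ⟨x, hx, hxy⟩]
    · rw [if_neg hxy, if_neg]
      rintro ⟨x', hx', hx'y⟩
      exact hxy ((h y hy x hx x' hx').2 hx'y)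
  rw [h1]
  exact hM _ _

theorem SG_split (G : Fin v → Finset (Fin v)) (P Q P' Q' : Finset (Fin v)) (hP : P' ⊆ P)
    (hQ : Q' ⊆ Q) : SG k B G P Q = SG k B G P' Q' + SG k B G (P \ P') Q + SG k B G P' (Q \ Q') := by
  classical
  unfold SG
  rw [← Finset.sum_sdiff hP (f := fun x => ∑ y ∈ Q, if x ∈ G y then Dm k B x y else 0)]
  have h1 : ∀ x, ∑ y ∈ Q, (if x ∈ G y then Dm k B x y else 0) =
      ∑ y ∈ Q \ Q', (if x ∈ G y then Dm k B x y else 0) +
      ∑ y ∈ Q', (if x ∈ G y then Dm k B x y else 0) := fun x =>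
    (Finset.sum_sdiff hQ).symm
  have h2 : ∑ x ∈ P', ∑ y ∈ Q, (if x ∈ G y then Dm k B x y else 0) =
      ∑ x ∈ P', ∑ y ∈ Q \ Q', (if x ∈ G y then Dm k B x y else 0) +
      ∑ x ∈ P', ∑ y ∈ Q', (if x ∈ G y then Dm k B x y else 0) := by
    rw [← Finset.sum_add_distrib]
    exact Finset.sum_congr rfl fun x _ => h1 x
  rw [h2]
  ring

theorem SG_main {M : ℝ} (hM : ∀ P Q : Finset (Fin v), |∑ x ∈ P, ∑ y ∈ Q, Dm k B x y| ≤ M)
    (G : Fin v → Finset (Fin v)) (θ : ℝ) (hθ0 : 0 ≤ θ) (hθ1 : θ ≤ 1)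
    (hG : ∀ P Q : Finset (Fin v), ∃ P' ⊆ P, ∃ Q' ⊆ Q,
      θ * (P.card * Q.card) ≤ (P'.card : ℝ) * Q'.card ∧
      ∀ y ∈ Q', ∀ x ∈ P', ∀ x' ∈ P', (x ∈ G y ↔ x' ∈ G y)) (t : ℕ) :
    ∀ P Q : Finset (Fin v),
      |SG k B G P Q| ≤ (2 ^ (t + 1) - 1) * M + 2 * (1 - θ) ^ t * (P.card * Q.card) := by
  classical
  induction t with
  | zero =>
    intro P Q
    have := SG_trivial hM G P Q
    simp only [zero_add, pow_one, pow_zero, mul_one]
    linarith
  | succ t ih =>
    intro P Q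
    obtain ⟨P', hP, Q', hQ, h1, h2⟩ := hG P Q
    rw [SG_split G P Q P' Q' hP hQ]
    have e1 := SG_homog hM G P' Q' h2
    have e2 := ih (P \ P') Q
    have e3 := ih P' (Q \ Q')
    have c1 : ((P \ P').card : ℝ) = P.card - P'.card := by
      rw [card_sdiff_of_subset hP, Nat.cast_sub (card_le_card hP)]
    have c2 : ((Q \ Q').card : ℝ) = Q.card - Q'.card := by
      rw [card_sdiff_of_subset hQ, Nat.cast_sub (card_le_card hQ)]
    rw [c1] at e2
    rw [c2] at e3
    have h3 : |SG k B G P' Q' + SG k B G (P \ P') Q + SG k B G P' (Q \ Q')| ≤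
        |SG k B G P' Q'| + |SG k B G (P \ P') Q| + |SG k B G P' (Q \ Q')| := abs_add_three _ _ _
    have hpow : (0 : ℝ) ≤ (1 - θ) ^ t := pow_nonneg (by linarith) t
    have h4 : 2 * (1 - θ) ^ t * ((P.card : ℝ) * Q.card - P'.card * Q'.card) ≤
        2 * (1 - θ) ^ (t + 1) * (P.card * Q.card) := by
      rw [pow_succ]
      have : (P.card : ℝ) * Q.card - P'.card * Q'.card ≤ (1 - θ) * (P.card * Q.card) := by
        linarith
      calc 2 * (1 - θ) ^ t * ((P.card : ℝ) * Q.card - P'.card * Q'.card)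
          ≤ 2 * (1 - θ) ^ t * ((1 - θ) * (P.card * Q.card)) :=
            mul_le_mul_of_nonneg_left this (by positivity)
        _ = _ := by ring
    have h5 : 2 * (1 - θ) ^ t * (((P.card : ℝ) - P'.card) * Q.card) +
        2 * (1 - θ) ^ t * ((P'.card : ℝ) * (Q.card - Q'.card)) =
        2 * (1 - θ) ^ t * ((P.card : ℝ) * Q.card - P'.card * Q'.card) := by ring
    have h6 : (2 : ℝ) ^ (t + 1 + 1) = 2 * 2 ^ (t + 1) := by rw [pow_succ]; ring
    rw [h6]
    linarith

end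

end Pool.Agent.Helper17_Hall
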